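import Mathlib

/-!
# Almost Kähler manifolds, pseudoholomorphic spheres and the linearised Cauchy-Riemann operator
-/

open scoped Manifold ContDiff Topology
open Metric Set Bundle

noncomputable section

namespace Pool.Agent.Helper206.Cover

/-! ### The Riemann sphere -/

/-- Euclidean three-space. -/
abbrev R3 : Type := EuclideanSpace ℝ (Fin 3)

/-- The cross product of `R3`. -/
def cross (a b : R3) : R3 :=
  !₂[a 1 * b 2 - a 2 * b 1, a 2 * b 0 - a 0 * b 2, a 0 * b 1 - a 1 * b 0]

/-- The Riemann sphere `P¹`: the unit sphere of `R3` with its smooth structure from Mathlib. -/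
abbrev P1 : Type := sphere (0 : R3) 1

/-- The differential `T_z P¹ → R3` of the inclusion of the unit sphere. It is injective and its
range is the orthogonal complement of `z`. -/
def dInc (z : P1) : TangentSpace (𝓡 2) z →L[ℝ] R3 :=
  mvfderiv (𝓡 2) (fun z : P1 => (z : R3)) z

theorem exists_tanProj (z : P1) : ∃ κ : R3 →L[ℝ] TangentSpace (𝓡 2) z,
    ∀ v, dInc z (κ v) = v - (inner ℝ (z : R3) v) • (z : R3) := by
  haveI hF : Fact (Module.finrank ℝ R3 = 2 + 1) := ⟨finrank_euclideanSpace_fin⟩
  have hinj : Function.Injective (dInc z) := injective_mvfderiv_subtypeVal_sphere z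
  have hrange : (dInc z).range = (Submodule.span ℝ {(z : R3)})ᗮ := range_mvfderiv_subtypeVal z
  have hz : ‖(z : R3)‖ = 1 := by
    have := z.2
    rwa [mem_sphere_zero_iff_norm] at this
  let P : R3 →ₗ[ℝ] R3 :=
    { toFun := fun v => v - (inner ℝ (z : R3) v) • (z : R3)
      map_add' := by
        intro a b
        rw [inner_add_right, add_smul]
        abel
      map_smul' := by
        intro c a
        rw [inner_smul_right, RingHom.id_apply, smul_sub, mul_smul] }
  have hP : ∀ v, P v ∈ ((dInc z) : TangentSpace (𝓡 2) z →ₗ[ℝ] R3).range := by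
    intro v
    have : P v ∈ (dInc z).range := by
      rw [hrange, Submodule.mem_orthogonal_singleton_iff_inner_right]
      show inner ℝ (z : R3) (v - (inner ℝ (z : R3) v) • (z : R3)) = 0
      rw [inner_sub_right, inner_smul_right, real_inner_self_eq_norm_sq, hz]
      ring
    exact this
  let L := LinearEquiv.ofInjective ((dInc z) : TangentSpace (𝓡 2) z →ₗ[ℝ] R3) hinj
  let κ' : R3 →ₗ[ℝ] TangentSpace (𝓡 2) z :=
    (L.symm : _ →ₗ[ℝ] TangentSpace (𝓡 2) z).comp (P.codRestrict _ hP)
  refine ⟨LinearMap.toContinuousLinearMap κ', ?_⟩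
  intro v
  have h1 : L (κ' v) = P.codRestrict _ hP v := by
    show L (L.symm _) = _
    rw [LinearEquiv.apply_symm_apply]
  have h2 := congrArg Subtype.val h1
  exact h2

/-- The orthogonal projection `R3 → T_z P¹`. -/
def tanProj (z : P1) : R3 →L[ℝ] TangentSpace (𝓡 2) z := (exists_tanProj z).choose

/-- The map `v ↦ z × v` of `R3`. -/
def crossL (z : R3) : R3 →L[ℝ] R3 :=
  LinearMap.toContinuousLinearMap
    { toFun := cross z
      map_add' := by
        intro a b; ext i; fin_cases i <;> simp [cross] <;> ring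
      map_smul' := by
        intro c a; ext i; fin_cases i <;> simp [cross] <;> ring }

/-- The complex structure of the Riemann sphere: `j w = z × w`, the rotation of the tangent plane
by the angle `π / 2` about the outward normal `z`. -/
def jP1 (z : P1) : TangentSpace (𝓡 2) z →L[ℝ] TangentSpace (𝓡 2) z :=
  (tanProj z).comp ((crossL z).comp (dInc z))

/-! ### Coordinate expressions -/

section General

variable {E : Type*} [NormedAddCommGroup E] [NormedSpace ℝ E] {H : Type*} [TopologicalSpace H]
  (I : ModelWithCorners ℝ E H) (X : Type*) [TopologicalSpace X] [ChartedSpace H X]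

/-- Fields of bilinear forms on the tangent spaces of `X`. -/
abbrev BilinField : Type _ := (x : X) → TangentSpace I x →L[ℝ] TangentSpace I x →L[ℝ] ℝ

/-- Fields of endomorphisms of the tangent spaces of `X`. -/
abbrev EndoField : Type _ := (x : X) → TangentSpace I x →L[ℝ] TangentSpace I x

variable {I X}

/-- The bilinear form `B` in the preferred chart `φ` at `x₀`: at the point `y` of the model space
it is the pull back of `B` by `φ⁻¹`. -/
def formInChart (B : BilinField I X) (x₀ : X) (y : E) : E →L[ℝ] E →L[ℝ] ℝ :=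
  let b : E →L[ℝ] E →L[ℝ] ℝ := B ((extChartAt I x₀).symm y)
  let D : E →L[ℝ] E := mfderiv 𝓘(ℝ, E) I (extChartAt I x₀).symm y
  b.bilinearComp D D

/-- The endomorphism field `A` in the preferred chart `φ` at `x₀`: at the point `y` of the model
space it is `dφ ∘ A ∘ dφ⁻¹`. -/
def endoInChart (A : EndoField I X) (x₀ : X) (y : E) : E →L[ℝ] E :=
  (mvfderiv I (extChartAt I x₀) ((extChartAt I x₀).symm y)).comp
    ((A ((extChartAt I x₀).symm y)).comp (mfderiv 𝓘(ℝ, E) I (extChartAt I x₀).symm y))

variable (I X)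

/-- An almost Kähler structure: a symplectic form `ω` (smooth, closed, alternating,
nondegenerate) and a smooth almost complex structure `J` compatible with `ω`, that is
`ω (J v, J w) = ω (v, w)` and `ω (v, J v) > 0` for `v ≠ 0`. (Nondegeneracy of `ω` follows from the
last condition.) -/
structure AlmostKahler where
  /-- the symplectic form -/
  form : BilinField I X
  /-- the almost complex structure -/
  J : EndoField I X
  form_alt : ∀ x v, form x v v = 0
  form_smooth : ∀ x₀ : X, ContDiffOn ℝ ∞ (formInChart form x₀) (extChartAt I x₀).target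
  form_closed : ∀ x₀ : X, ∀ y ∈ (extChartAt I x₀).target, ∀ a b c : E,
    fderiv ℝ (formInChart form x₀) y a b c + fderiv ℝ (formInChart form x₀) y b c a
      + fderiv ℝ (formInChart form x₀) y c a b = 0
  J_smooth : ∀ x₀ : X, ContDiffOn ℝ ∞ (endoInChart J x₀) (extChartAt I x₀).target
  J_sq : ∀ x v, J x (J x v) = -v
  form_J : ∀ x v w, form x (J x v) (J x w) = form x v w
  form_pos : ∀ x v, v ≠ 0 → 0 < form x v (J x v)

variable {I X} [IsManifold I ∞ X] (K : AlmostKahler I X)

/-- `u : P¹ → X` is a `J`-holomorphic sphere: it is smooth and `du ∘ j = J ∘ du`. -/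
def IsHolomorphic (u : P1 → X) : Prop :=
  ContMDiff (𝓡 2) I ∞ u ∧
    ∀ (z : P1) (w : TangentSpace (𝓡 2) z),
      mfderiv (𝓡 2) I u z (jP1 z w) = K.J (u z) (mfderiv (𝓡 2) I u z w)

variable (I) in
/-- `ξ` is a smooth vector field along `u`, that is a smooth section of `u^* TX`. -/
def IsSmoothAlong (u : P1 → X) (ξ : (z : P1) → TangentSpace I (u z)) : Prop :=
  ContMDiff (𝓡 2) I.tangent ∞ (fun z => (⟨u z, ξ z⟩ : TangentBundle I X))

/-- `η` is a smooth `(0,1)`-form on `P¹` with values in `u^* TX`: `η ∘ j = - J ∘ η`, and `η` maps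
smooth vector fields on `P¹` to smooth sections of `u^* TX`. -/
def IsForm01 (u : P1 → X) (η : (z : P1) → TangentSpace (𝓡 2) z →L[ℝ] TangentSpace I (u z)) :
    Prop :=
  (∀ (z : P1) (w : TangentSpace (𝓡 2) z), η z (jP1 z w) = -(K.J (u z) (η z w))) ∧
    ∀ Y : (z : P1) → TangentSpace (𝓡 2) z,
      ContMDiff (𝓡 2) (𝓡 2).tangent ∞ (fun z => (⟨z, Y z⟩ : TangentBundle (𝓡 2) P1)) →
      IsSmoothAlong I u (fun z => η z (Y z))

/-- The vector field `ξ` along `u` in the preferred chart `φ` of `X` at `u z₀`: `z ↦ dφ (ξ z)`. -/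
def fieldInChart (u : P1 → X) (ξ : (z : P1) → TangentSpace I (u z)) (z₀ z : P1) : E :=
  mvfderiv I (extChartAt I (u z₀)) (u z) (ξ z)

/-- The linearisation `D_u` at `u` of the Cauchy-Riemann operator
`u ↦ ½ (du + J(u) ∘ du ∘ j)`, applied to the vector field `ξ` along `u` and evaluated at the
tangent vector `w` of `P¹` at `z`. It is computed in the preferred chart of `X` at `u z`, in which
it is `½ (dξ(w) + J(u) dξ(j w) + (∂_ξ J)(u) du(j w))` (at a `J`-holomorphic `u` this is
independent of the chart). -/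
def linearization (u : P1 → X) (ξ : (z : P1) → TangentSpace I (u z)) (z : P1)
    (w : TangentSpace (𝓡 2) z) : TangentSpace I (u z) :=
  let dξ : TangentSpace (𝓡 2) z →L[ℝ] TangentSpace I (u z) :=
    mvfderiv (𝓡 2) (fieldInChart u ξ z) z
  let dJ : TangentSpace I (u z) →L[ℝ] TangentSpace I (u z) :=
    fderiv ℝ (endoInChart K.J (u z)) (extChartAt I (u z) (u z)) (ξ z)
  (1 / 2 : ℝ) • (dξ w + K.J (u z) (dξ (jP1 z w)) + dJ (mfderiv (𝓡 2) I u z (jP1 z w)))

/-- `u` is regular: its linearised operator `D_u : Γ(u^* TX) → Ω^{0,1}(P¹; u^* TX)` is onto, that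
is its cokernel `H¹(P¹; u^* TX)` vanishes. -/
def IsRegular (u : P1 → X) : Prop :=
  ∀ η : (z : P1) → TangentSpace (𝓡 2) z →L[ℝ] TangentSpace I (u z), IsForm01 K u η →
    ∃ ξ : (z : P1) → TangentSpace I (u z), IsSmoothAlong I u ξ ∧
      ∀ (z : P1) (w : TangentSpace (𝓡 2) z), linearization K u ξ z w = η z w

end General

end Pool.Agent.Helper206.Cover
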