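import Mathlib
import Pool.Agent.Helper206.Cover.Defs

/-!
# The torus `T3 = (ℝ/ℤ)³` as a smooth manifold
-/

open scoped Manifold ContDiff Topology
open Metric Set Bundle

noncomputable section

namespace Pool.Agent.Helper206.Cover

/-- The three-dimensional torus. -/
def T3 : Type := Fin 3 → AddCircle (1 : ℝ)

instance : TopologicalSpace T3 := inferInstanceAs (TopologicalSpace (Fin 3 → AddCircle (1 : ℝ)))
instance : CompactSpace T3 := inferInstanceAs (CompactSpace (Fin 3 → AddCircle (1 : ℝ)))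
instance : T2Space T3 := inferInstanceAs (T2Space (Fin 3 → AddCircle (1 : ℝ)))
instance : ConnectedSpace T3 := inferInstanceAs (ConnectedSpace (Fin 3 → AddCircle (1 : ℝ)))

/-- The projection `R3 → T3`. -/
def toT3 (x : R3) : T3 := fun i => ((x i : ℝ) : AddCircle (1 : ℝ))

/-- The restriction of the projection `R3 → T3` to the open cube of side `1` centred at `a`. -/
def cubeT3 (a : R3) : OpenPartialHomeomorph R3 T3 :=
  (PiLp.homeomorph 2 (fun _ : Fin 3 => ℝ)).toOpenPartialHomeomorph.trans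
    (OpenPartialHomeomorph.pi fun i : Fin 3 =>
      AddCircle.openPartialHomeomorphCoe (1 : ℝ) (a i - 1 / 2))

/-- A lift of a point of `T3` to `R3`. -/
def liftT3 (p : T3) : R3 := WithLp.toLp 2 fun i => ((AddCircle.equivIco (1 : ℝ) 0 (p i) : ℝ))

theorem toT3_liftT3 (p : T3) : toT3 (liftT3 p) = p := by
  funext i
  exact (AddCircle.equivIco (1 : ℝ) 0).symm_apply_apply (p i)

theorem cubeT3_apply (a x : R3) : cubeT3 a x = toT3 x := rfl

theorem cubeT3_source (a : R3) :
    (cubeT3 a).source = {x | ∀ i, a i - 1 / 2 < x i ∧ x i < a i - 1 / 2 + 1} := by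
  ext x
  constructor
  · rintro ⟨-, h⟩ i
    exact h i trivial
  · intro h
    exact ⟨trivial, fun i _ => h i⟩

/-- The smooth structure of the torus: the charts are the local inverses of `R3 → T3`. -/
instance : ChartedSpace R3 T3 where
  atlas := {e | ∃ a : R3, e = (cubeT3 a).symm}
  chartAt p := (cubeT3 (liftT3 p)).symm
  mem_chart_source p := by
    have h : liftT3 p ∈ (cubeT3 (liftT3 p)).source := by
      rw [cubeT3_source]; intro i; constructor <;> linarith
    have := (cubeT3 (liftT3 p)).map_source h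
    rw [cubeT3_apply, toT3_liftT3] at this
    exact this
  chart_mem_atlas p := ⟨_, rfl⟩

theorem chartAt_T3 (p : T3) : chartAt R3 p = (cubeT3 (liftT3 p)).symm := rfl

theorem extChartAt_T3_symm (p : T3) : ((extChartAt 𝓘(ℝ, R3) p).symm : R3 → T3) = toT3 := by
  funext x
  simp [extChartAt, chartAt_T3, cubeT3_apply]

/-- Near a point `x` the chart at `p₀` composed with the projection is a translation. -/
theorem chartT3_comp_toT3 (a x : R3) (hx : toT3 x ∈ (cubeT3 a).target) :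
    ∃ n : R3, ∀ᶠ y in 𝓝 x, (cubeT3 a).symm (toT3 y) = y + n := by
  set z : R3 := (cubeT3 a).symm (toT3 x) with hz
  have hzs : z ∈ (cubeT3 a).source := (cubeT3 a).map_target hx
  have hzx : toT3 z = toT3 x := by
    rw [← cubeT3_apply a z]
    exact (cubeT3 a).right_inv hx
  refine ⟨z - x, ?_⟩
  have hcont : Continuous fun y : R3 => y + (z - x) := continuous_id.add continuous_const
  have hmem : (fun y : R3 => y + (z - x)) x ∈ (cubeT3 a).source := by
    have : x + (z - x) = z := by abel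
    change x + (z - x) ∈ (cubeT3 a).source
    rw [this]
    exact hzs
  have hev : ∀ᶠ y in 𝓝 x, y + (z - x) ∈ (cubeT3 a).source :=
    hcont.continuousAt.preimage_mem_nhds ((cubeT3 a).open_source.mem_nhds hmem)
  filter_upwards [hev] with y hy
  have hyt : toT3 y = toT3 (y + (z - x)) := by
    funext i
    have hi : ((z i : ℝ) : AddCircle (1 : ℝ)) = ((x i : ℝ) : AddCircle (1 : ℝ)) := congrFun hzx i
    change ((y i : ℝ) : AddCircle (1 : ℝ)) = (((y + (z - x)) i : ℝ) : AddCircle (1 : ℝ))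
    have : (y + (z - x)) i = y i + (z i - x i) := rfl
    rw [this, AddCircle.coe_add, AddCircle.coe_sub, hi, sub_self, add_zero]
  rw [hyt, ← cubeT3_apply a]
  exact (cubeT3 a).left_inv hy

instance : IsManifold 𝓘(ℝ, R3) ∞ T3 := by
  apply isManifold_of_contDiffOn
  rintro e e' ⟨a, rfl⟩ ⟨b, rfl⟩
  intro x hx
  have hx1 : x ∈ ((cubeT3 a).symm.symm ≫ₕ (cubeT3 b).symm).source := hx.1
  have hx2 : toT3 x ∈ (cubeT3 b).target := by
    have h1 := hx1.2
    exact h1
  obtain ⟨n, hn⟩ := chartT3_comp_toT3 b x hx2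
  have h2 : ContDiffAt ℝ ∞ (fun y : R3 => y + n) x := contDiffAt_id.add contDiffAt_const
  have h3 : ContDiffAt ℝ ∞ (fun y : R3 => (cubeT3 b).symm (toT3 y)) x :=
    h2.congr_of_eventuallyEq hn
  exact h3.contDiffWithinAt

theorem contMDiff_toT3 : ContMDiff 𝓘(ℝ, R3) 𝓘(ℝ, R3) ∞ toT3 := by
  intro x
  have hmem : (cubeT3 x).symm ∈ atlas R3 T3 := ⟨x, rfl⟩
  have hmax : (cubeT3 x).symm ∈ IsManifold.maximalAtlas 𝓘(ℝ, R3) ∞ T3 :=
    IsManifold.subset_maximalAtlas hmem
  have h1 := contMDiffOn_symm_of_mem_maximalAtlas hmax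
  have hxs : x ∈ (cubeT3 x).source := by
    rw [cubeT3_source]; intro i; constructor <;> linarith
  exact h1.contMDiffAt ((cubeT3 x).open_source.mem_nhds hxs)

theorem mfderiv_toT3 (x : R3) :
    mfderiv 𝓘(ℝ, R3) 𝓘(ℝ, R3) toT3 x = (ContinuousLinearMap.id ℝ R3 : R3 →L[ℝ] R3) := by
  apply HasMFDerivAt.mfderiv
  refine ⟨(contMDiff_toT3 x).continuousAt, ?_⟩
  obtain ⟨n, hn⟩ := chartT3_comp_toT3 (liftT3 (toT3 x)) x
    (mem_chart_source R3 (toT3 x))
  have h1 : HasFDerivAt (fun y : R3 => y + n) (ContinuousLinearMap.id ℝ R3) x :=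
    (hasFDerivAt_id x).add_const n
  have h2 : HasFDerivAt (fun y : R3 => (cubeT3 (liftT3 (toT3 x))).symm (toT3 y))
      (ContinuousLinearMap.id ℝ R3) x := h1.congr_of_eventuallyEq hn
  exact h2.hasFDerivWithinAt

theorem mfderiv_extChartAt_T3 (p₀ p : T3) (hp : p ∈ (extChartAt 𝓘(ℝ, R3) p₀).source) :
    mfderiv 𝓘(ℝ, R3) 𝓘(ℝ, R3) (extChartAt 𝓘(ℝ, R3) p₀) p
      = (ContinuousLinearMap.id ℝ R3 : R3 →L[ℝ] R3) := by
  apply HasMFDerivAt.mfderiv
  refine ⟨continuousAt_extChartAt' hp, ?_⟩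
  have hp2 : p ∈ (cubeT3 (liftT3 p₀)).target := by
    rw [extChartAt_source] at hp
    exact hp
  set x : R3 := (extChartAt 𝓘(ℝ, R3) p) p with hx
  have hxp : toT3 x = p := by
    rw [← extChartAt_T3_symm p]
    exact (extChartAt 𝓘(ℝ, R3) p).left_inv (mem_extChartAt_source p)
  obtain ⟨n, hn⟩ := chartT3_comp_toT3 (liftT3 p₀) x (by rw [hxp]; exact hp2)
  have h1 : HasFDerivAt (fun y : R3 => y + n) (ContinuousLinearMap.id ℝ R3) x :=
    (hasFDerivAt_id x).add_const n
  have h2 : HasFDerivAt (fun y : R3 => (cubeT3 (liftT3 p₀)).symm (toT3 y))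
      (ContinuousLinearMap.id ℝ R3) x := h1.congr_of_eventuallyEq hn
  have h3 : (writtenInExtChartAt 𝓘(ℝ, R3) 𝓘(ℝ, R3) p (extChartAt 𝓘(ℝ, R3) p₀) : R3 → R3) =
      fun y : R3 => (cubeT3 (liftT3 p₀)).symm (toT3 y) := by
    funext y
    simp only [writtenInExtChartAt, Function.comp, extChartAt_T3_symm]
    rfl
  rw [h3]
  exact h2.hasFDerivWithinAt

end Pool.Agent.Helper206.Cover
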