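import Mathlib
import Pool.Agent.Helper206.Cover.Torus

/-!
# The almost Kähler structure on `P¹ × T³ × T³`
-/

open scoped Manifold ContDiff Topology
open Metric Set Bundle

noncomputable section

namespace Pool.Agent.Helper206.Cover

abbrev E2 : Type := EuclideanSpace ℝ (Fin 2)
/-- the eight-manifold -/
abbrev Y : Type := P1 × (T3 × T3)
/-- its model with corners -/
abbrev IY : ModelWithCorners ℝ (E2 × (R3 × R3)) (ModelProd E2 (ModelProd R3 R3)) :=
  (𝓡 2).prod (𝓘(ℝ, R3).prod 𝓘(ℝ, R3))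
/-- its model vector space -/
abbrev EY : Type := E2 × (R3 × R3)
/-- the vector space containing the tangent spaces -/
abbrev W : Type := R3 × (R3 × R3)

theorem crossL_apply (z v : R3) : crossL z v = cross z v := rfl

/-- first row of the almost complex structure -/
def rowS (z : R3) : W →L[ℝ] R3 :=
  (crossL z).comp (ContinuousLinearMap.fst ℝ R3 (R3 × R3))
    - (2 : ℝ) • (crossL z).comp ((ContinuousLinearMap.fst ℝ R3 R3).comp
        (ContinuousLinearMap.snd ℝ R3 (R3 × R3)))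
    - (6 : ℝ) • (ContinuousLinearMap.snd ℝ R3 R3).comp (ContinuousLinearMap.snd ℝ R3 (R3 × R3))

theorem rowS_apply (z : R3) (v : W) :
    rowS z v = cross z v.1 - (2 : ℝ) • cross z v.2.1 - (6 : ℝ) • v.2.2 := rfl

/-- the other rows of the almost complex structure -/
def rowV (z : R3) : (R3 × R3) →L[ℝ] (R3 × R3) :=
  ((2 : ℝ) • (crossL z).comp (ContinuousLinearMap.fst ℝ R3 R3)
      + (3 : ℝ) • ContinuousLinearMap.snd ℝ R3 R3
      - (4 : ℝ) • ((innerSL ℝ z).comp (ContinuousLinearMap.snd ℝ R3 R3)).smulRight z).prod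
    (ContinuousLinearMap.fst ℝ R3 R3
      - (2 : ℝ) • (crossL z).comp (ContinuousLinearMap.snd ℝ R3 R3))

theorem rowV_apply (z : R3) (v : R3 × R3) :
    rowV z v = ((2 : ℝ) • cross z v.1 + (3 : ℝ) • v.2 - (4 : ℝ) • (inner ℝ z v.2) • z,
      v.1 - (2 : ℝ) • cross z v.2) := rfl

/-- the inner product of `R3` as a bilinear map -/
def dotL : R3 →L[ℝ] R3 →L[ℝ] ℝ :=
  LinearMap.toContinuousLinearMap
    ((LinearMap.toContinuousLinearMap : (R3 →ₗ[ℝ] ℝ) ≃ₗ[ℝ] (R3 →L[ℝ] ℝ)).toLinearMap ∘ₗ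
      (innerₗ R3))

theorem dotL_apply (a b : R3) : dotL a b = inner ℝ a b := rfl

/-- first component -/
def pr0 : W →L[ℝ] R3 := ContinuousLinearMap.fst ℝ R3 (R3 × R3)
/-- second component -/
def pr1 : W →L[ℝ] R3 :=
  (ContinuousLinearMap.fst ℝ R3 R3).comp (ContinuousLinearMap.snd ℝ R3 (R3 × R3))
/-- third component -/
def pr2 : W →L[ℝ] R3 :=
  (ContinuousLinearMap.snd ℝ R3 R3).comp (ContinuousLinearMap.snd ℝ R3 (R3 × R3))

/-- the constant part of the symplectic form -/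
def formC : W →L[ℝ] W →L[ℝ] ℝ :=
  dotL.bilinearComp pr1 pr2 - (dotL.bilinearComp pr1 pr2).flip
    + (2 : ℝ) • (dotL.bilinearComp pr0 pr2 - (dotL.bilinearComp pr0 pr2).flip)

/-- the symplectic form as an ambient form -/
def formW (z : R3) : W →L[ℝ] W →L[ℝ] ℝ :=
  dotL.bilinearComp ((crossL z).comp pr0) pr0 + formC

theorem formC_apply (v v' : W) :
    formC v v' = inner ℝ v.2.1 v'.2.2 - inner ℝ v'.2.1 v.2.2
      + 2 * (inner ℝ v.1 v'.2.2 - inner ℝ v'.1 v.2.2) := rfl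

theorem formW_apply (z : R3) (v v' : W) :
    formW z v v' = inner ℝ (cross z v.1) v'.1 + (inner ℝ v.2.1 v'.2.2 - inner ℝ v'.2.1 v.2.2
      + 2 * (inner ℝ v.1 v'.2.2 - inner ℝ v'.1 v.2.2)) := rfl

/-- the inclusion of the tangent space of `Y` at `x` in `W` -/
def incY (x : Y) : EY →L[ℝ] W :=
  ((dInc x.1 : E2 →L[ℝ] R3).prodMap (ContinuousLinearMap.id ℝ (R3 × R3)))

/-- the almost complex structure of `Y` -/
def JY : EndoField IY Y := fun x =>
  ((((tanProj x.1 : R3 →L[ℝ] E2).comp ((rowS x.1).comp (incY x))).prod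
    ((rowV x.1).comp (ContinuousLinearMap.snd ℝ E2 (R3 × R3)))) : EY →L[ℝ] EY)

/-- the symplectic form of `Y` -/
def formY : BilinField IY Y := fun x =>
  ((formW x.1).bilinearComp (incY x) (incY x) : EY →L[ℝ] EY →L[ℝ] ℝ)

end Pool.Agent.Helper206.Cover
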