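import Mathlib
import Pool.Agent.Helper206.Cover.Example

/-!
# Algebraic identities for the almost complex structure
-/

open scoped Manifold ContDiff Topology
open Metric Set Bundle

noncomputable section

namespace Pool.Agent.Helper206.Cover

/-- the almost complex structure on the vectors of `W` whose first component is orthogonal to
`z` -/
def Jw (z : R3) (v : W) : W :=
  (rowS z v - (inner ℝ z (rowS z v)) • z, rowV z v.2)

/-- the diagonal matrix `(1, -1, 0)` -/
def M0 (v : R3) : R3 := !₂[v 0, -v 1, 0]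

/-- the differential of `z ↦ z × M0 z` in the direction `w` -/
def dgq (z w : R3) : R3 := cross w (M0 z) + cross z (M0 w)

/-- the `(0,1)`-form which is not in the image -/
def etaW (z w : R3) : W :=
  ((2 : ℝ) • cross z (M0 w), (dgq z w - (4 : ℝ) • cross z (M0 w), -M0 w))

theorem crx_add (z x y : R3) : cross z (x + y) = cross z x + cross z y := (crossL z).map_add x y
theorem crx_sub (z x y : R3) : cross z (x - y) = cross z x - cross z y := (crossL z).map_sub x y
theorem crx_smul (z : R3) (c : ℝ) (x : R3) : cross z (c • x) = c • cross z x :=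
  (crossL z).map_smul c x
theorem crx_self (z : R3) : cross z z = 0 := by
  ext i
  fin_cases i <;> simp [cross] <;> ring

theorem crx_crx (z : R3) (hz : inner ℝ z z = (1 : ℝ)) (x : R3) :
    cross z (cross z x) = (inner ℝ z x : ℝ) • z - x := by
  rw [PiLp.inner_apply, Fin.sum_univ_three] at hz
  simp only [RCLike.inner_apply, conj_trivial] at hz
  rw [PiLp.inner_apply, Fin.sum_univ_three]
  simp only [RCLike.inner_apply, conj_trivial]
  ext i
  fin_cases i
  · simp [cross]
    linear_combination (-x 0) * hz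
  · simp [cross]
    linear_combination (-x 1) * hz
  · simp [cross]
    linear_combination (-x 2) * hz

theorem inner_z_crx (z x : R3) : inner ℝ z (cross z x) = (0 : ℝ) := by
  rw [PiLp.inner_apply, Fin.sum_univ_three]
  simp [cross]
  ring

theorem inner_crx_z (z x : R3) : inner ℝ (cross z x) z = (0 : ℝ) := by
  rw [real_inner_comm]
  exact inner_z_crx z x

theorem inner_crx_left (z x y : R3) : inner ℝ (cross z x) y = - (inner ℝ x (cross z y) : ℝ) := by
  rw [PiLp.inner_apply, Fin.sum_univ_three, PiLp.inner_apply, Fin.sum_univ_three]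
  simp [cross]
  ring

theorem inner_crx_crx (z : R3) (hz : inner ℝ z z = (1 : ℝ)) (x y : R3) :
    inner ℝ (cross z x) (cross z y) = (inner ℝ x y : ℝ) - inner ℝ z x * inner ℝ z y := by
  rw [inner_crx_left, crx_crx z hz, inner_sub_right, inner_smul_right, real_inner_comm z x]
  ring

theorem Jw_eq (z : R3) (v : W) :
    Jw z v = (cross z v.1 - (2 : ℝ) • cross z v.2.1 - (6 : ℝ) • v.2.2 +
      (6 * inner ℝ z v.2.2 : ℝ) • z,
      ((2 : ℝ) • cross z v.2.1 + (3 : ℝ) • v.2.2 - (4 : ℝ) • (inner ℝ z v.2.2) • z,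
      v.2.1 - (2 : ℝ) • cross z v.2.2)) := by
  have h1 : (inner ℝ z (rowS z v) : ℝ) = -6 * inner ℝ z v.2.2 := by
    rw [rowS_apply, inner_sub_right, inner_sub_right, inner_smul_right, inner_smul_right,
      inner_z_crx, inner_z_crx]
    ring
  unfold Jw
  rw [h1, rowS_apply, rowV_apply]
  congr 1
  module

theorem Jw_orth (z : R3) (hz : inner ℝ z z = (1 : ℝ)) (v : W) : inner ℝ z (Jw z v).1 = (0 : ℝ) := by
  rw [Jw_eq]
  simp only [inner_add_right, inner_sub_right, inner_smul_right, inner_z_crx, hz]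
  ring

theorem Jw_Jw (z : R3) (hz : inner ℝ z z = (1 : ℝ)) (v : W) (hv : inner ℝ z v.1 = (0 : ℝ)) :
    Jw z (Jw z v) = -v := by
  rw [Jw_eq z (Jw z v), Jw_eq z v]
  obtain ⟨s, p, q⟩ := v
  simp only at hv
  simp only [crx_add, crx_sub, crx_smul, crx_self, crx_crx z hz, inner_add_right, inner_sub_right,
    inner_smul_right, inner_z_crx, hz, hv]
  ext1
  · show _ = -s
    simp only
    module
  · ext1
    · show _ = -p
      simp only
      module
    · show _ = -q
      simp only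
      module

theorem formW_Jw (z : R3) (hz : inner ℝ z z = (1 : ℝ)) (v v' : W)
    (hv : inner ℝ z v.1 = (0 : ℝ)) (hv' : inner ℝ z v'.1 = (0 : ℝ)) :
    formW z (Jw z v) (Jw z v') = formW z v v' := by
  rw [Jw_eq z v, Jw_eq z v', formW_apply, formW_apply]
  obtain ⟨s, p, q⟩ := v
  obtain ⟨s', p', q'⟩ := v'
  simp only at hv hv'
  simp only [crx_add, crx_sub, crx_smul, crx_self, crx_crx z hz, inner_add_right, inner_sub_right,
    inner_smul_right, inner_add_left, inner_sub_left, inner_smul_left, inner_z_crx, inner_crx_z,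
    inner_crx_crx z hz, hz, hv, hv', conj_trivial, smul_zero, inner_zero_left, inner_zero_right]
  simp only [inner_crx_left]
  have c1 : ∀ x y : R3, (inner ℝ x (cross z y) : ℝ) = - inner ℝ y (cross z x) := by
    intro x y
    rw [real_inner_comm, inner_crx_left]
  have hvs : (inner ℝ s z : ℝ) = 0 := by rw [real_inner_comm]; exact hv
  rw [c1 p' p, c1 q' q, c1 s' p, real_inner_comm s' q, real_inner_comm p' q, real_inner_comm p q', hvs,
    real_inner_comm z p]
  ring

theorem formW_pos_dot (x y : R3) : (inner ℝ x y : ℝ) = x 0 * y 0 + x 1 * y 1 + x 2 * y 2 := by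
  rw [PiLp.inner_apply, Fin.sum_univ_three]
  simp only [RCLike.inner_apply, conj_trivial]
  ring

theorem formW_pos_c0 (a b : R3) : cross a b 0 = a 1 * b 2 - a 2 * b 1 := rfl
theorem formW_pos_c1 (a b : R3) : cross a b 1 = a 2 * b 0 - a 0 * b 2 := rfl
theorem formW_pos_c2 (a b : R3) : cross a b 2 = a 0 * b 1 - a 1 * b 0 := rfl

theorem formW_self (z : R3) (v : W) : formW z v v = 0 := by
  rw [formW_apply]
  simp only [formW_pos_dot, formW_pos_c0, formW_pos_c1, formW_pos_c2]
  ring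

theorem formW_pos (z : R3) (hz : inner ℝ z z = (1 : ℝ)) (v : W) (hv : inner ℝ z v.1 = (0 : ℝ))
    (hv0 : v ≠ 0) : 0 < formW z v (Jw z v) := by
  obtain ⟨w, a, b⟩ := v
  simp only at hv
  have key : formW z (w, a, b) (Jw z (w, a, b)) =
      ((w 0 + 2 * (z 1 * b 2 - z 2 * b 1)) ^ 2 + (w 1 + 2 * (z 2 * b 0 - z 0 * b 2)) ^ 2 +
        (w 2 + 2 * (z 0 * b 1 - z 1 * b 0)) ^ 2) +
      ((a 0 - (z 0 * a 0 + z 1 * a 1 + z 2 * a 2) * z 0 - 2 * (z 1 * b 2 - z 2 * b 1)) ^ 2 +
        (a 1 - (z 0 * a 0 + z 1 * a 1 + z 2 * a 2) * z 1 - 2 * (z 2 * b 0 - z 0 * b 2)) ^ 2 +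
        (a 2 - (z 0 * a 0 + z 1 * a 1 + z 2 * a 2) * z 2 - 2 * (z 0 * b 1 - z 1 * b 0)) ^ 2) +
      ((b 0 - (z 0 * b 0 + z 1 * b 1 + z 2 * b 2) * z 0) ^ 2 +
        (b 1 - (z 0 * b 0 + z 1 * b 1 + z 2 * b 2) * z 1) ^ 2 +
        (b 2 - (z 0 * b 0 + z 1 * b 1 + z 2 * b 2) * z 2) ^ 2) +
      (z 0 * a 0 + z 1 * a 1 + z 2 * a 2) ^ 2 + (z 0 * b 0 + z 1 * b 1 + z 2 * b 2) ^ 2 := by
    rw [formW_pos_dot] at hz hv
    rw [formW_apply]
    simp only [Jw, rowS_apply, rowV_apply, formW_pos_dot, formW_pos_c0, formW_pos_c1,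
      formW_pos_c2, PiLp.add_apply, PiLp.sub_apply, PiLp.smul_apply, smul_eq_mul]
    linear_combination ((w 0 * w 0 + w 1 * w 1 + w 2 * w 2) -
      2 * (w 0 * a 0 + w 1 * a 1 + w 2 * a 2) - 8 * (b 0 * b 0 + b 1 * b 1 + b 2 * b 2) -
      (z 0 * b 0 + z 1 * b 1 + z 2 * b 2) ^ 2 - (z 0 * a 0 + z 1 * a 1 + z 2 * a 2) ^ 2) * hz +
      (2 * (z 0 * a 0 + z 1 * a 1 + z 2 * a 2) - (z 0 * w 0 + z 1 * w 1 + z 2 * w 2)) * hv
  by_contra hcon
  push Not at hcon
  rw [key] at hcon
  set β := z 0 * b 0 + z 1 * b 1 + z 2 * b 2 with hβ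
  set α := z 0 * a 0 + z 1 * a 1 + z 2 * a 2 with hα
  set p0 := w 0 + 2 * (z 1 * b 2 - z 2 * b 1) with hp0
  set p1 := w 1 + 2 * (z 2 * b 0 - z 0 * b 2) with hp1
  set p2 := w 2 + 2 * (z 0 * b 1 - z 1 * b 0) with hp2
  set q0 := a 0 - α * z 0 - 2 * (z 1 * b 2 - z 2 * b 1) with hq0
  set q1 := a 1 - α * z 1 - 2 * (z 2 * b 0 - z 0 * b 2) with hq1
  set q2 := a 2 - α * z 2 - 2 * (z 0 * b 1 - z 1 * b 0) with hq2
  set r0 := b 0 - β * z 0 with hr0
  set r1 := b 1 - β * z 1 with hr1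
  set r2 := b 2 - β * z 2 with hr2
  have sβ := sq_nonneg β
  have sα := sq_nonneg α
  have s0 := sq_nonneg p0
  have s1 := sq_nonneg p1
  have s2 := sq_nonneg p2
  have t0 := sq_nonneg q0
  have t1 := sq_nonneg q1
  have t2 := sq_nonneg q2
  have u0 := sq_nonneg r0
  have u1 := sq_nonneg r1
  have u2 := sq_nonneg r2
  have zβ : β = 0 := pow_eq_zero_iff two_ne_zero |>.mp (by linarith)
  have zα : α = 0 := pow_eq_zero_iff two_ne_zero |>.mp (by linarith)
  have z0 : p0 = 0 := pow_eq_zero_iff two_ne_zero |>.mp (by linarith)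
  have z1 : p1 = 0 := pow_eq_zero_iff two_ne_zero |>.mp (by linarith)
  have z2 : p2 = 0 := pow_eq_zero_iff two_ne_zero |>.mp (by linarith)
  have y0 : q0 = 0 := pow_eq_zero_iff two_ne_zero |>.mp (by linarith)
  have y1 : q1 = 0 := pow_eq_zero_iff two_ne_zero |>.mp (by linarith)
  have y2 : q2 = 0 := pow_eq_zero_iff two_ne_zero |>.mp (by linarith)
  have x0 : r0 = 0 := pow_eq_zero_iff two_ne_zero |>.mp (by linarith)
  have x1 : r1 = 0 := pow_eq_zero_iff two_ne_zero |>.mp (by linarith)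
  have x2 : r2 = 0 := pow_eq_zero_iff two_ne_zero |>.mp (by linarith)
  have b0 : b 0 = 0 := by rw [hr0, zβ] at x0; linarith
  have b1 : b 1 = 0 := by rw [hr1, zβ] at x1; linarith
  have b2 : b 2 = 0 := by rw [hr2, zβ] at x2; linarith
  have a0 : a 0 = 0 := by
    rw [hq0] at y0
    linear_combination y0 + z 0 * zα + 2 * z 1 * b2 - 2 * z 2 * b1
  have a1 : a 1 = 0 := by
    rw [hq1] at y1
    linear_combination y1 + z 1 * zα + 2 * z 2 * b0 - 2 * z 0 * b2
  have a2 : a 2 = 0 := by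
    rw [hq2] at y2
    linear_combination y2 + z 2 * zα + 2 * z 0 * b1 - 2 * z 1 * b0
  have w0 : w 0 = 0 := by
    rw [hp0] at z0
    linear_combination z0 - 2 * z 1 * b2 + 2 * z 2 * b1
  have w1 : w 1 = 0 := by
    rw [hp1] at z1
    linear_combination z1 - 2 * z 2 * b0 + 2 * z 0 * b2
  have w2 : w 2 = 0 := by
    rw [hp2] at z2
    linear_combination z2 - 2 * z 0 * b1 + 2 * z 1 * b0
  apply hv0
  have hw : w = 0 := by
    ext i; fin_cases i
    · exact w0
    · exact w1
    · exact w2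
  have ha : a = 0 := by
    ext i; fin_cases i
    · exact a0
    · exact a1
    · exact a2
  have hb : b = 0 := by
    ext i; fin_cases i
    · exact b0
    · exact b1
    · exact b2
  rw [hw, ha, hb]
  rfl

private theorem inner3 (a b : R3) : (inner ℝ a b : ℝ) =
    (fun x0 x1 x2 y0 y1 y2 : ℝ => x0 * y0 + x1 * y1 + x2 * y2)
      (a 0) (a 1) (a 2) (b 0) (b 1) (b 2) := by
  rw [PiLp.inner_apply, Fin.sum_univ_three]
  simp only [RCLike.inner_apply, conj_trivial]
  ring

private theorem cross0 (a b : R3) : cross a b 0 =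
    (fun x y u v : ℝ => x * y - u * v) (a 1) (b 2) (a 2) (b 1) := rfl
private theorem cross1 (a b : R3) : cross a b 1 =
    (fun x y u v : ℝ => x * y - u * v) (a 2) (b 0) (a 0) (b 2) := rfl
private theorem cross2 (a b : R3) : cross a b 2 =
    (fun x y u v : ℝ => x * y - u * v) (a 0) (b 1) (a 1) (b 0) := rfl
private theorem M00 (a : R3) : M0 a 0 = a 0 := rfl
private theorem M01 (a : R3) : M0 a 1 = (fun x : ℝ => -x) (a 1) := rfl
private theorem M02 (a : R3) : M0 a 2 = (0 : ℝ) := rfl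
private theorem smul3 (c : ℝ) (a : R3) (i : Fin 3) : (c • a) i = (fun x y : ℝ => x * y) c (a i) := rfl
private theorem sub3 (a b : R3) (i : Fin 3) : (a - b) i = (fun x y : ℝ => x - y) (a i) (b i) := rfl
private theorem add3 (a b : R3) (i : Fin 3) : (a + b) i = (fun x y : ℝ => x + y) (a i) (b i) := rfl
private theorem neg3 (a : R3) (i : Fin 3) : (-a) i = (fun x : ℝ => -x) (a i) := rfl

theorem etaW_orth (z w : R3) : inner ℝ z (etaW z w).1 = (0 : ℝ) := by
  rw [inner3]
  simp only [etaW, smul3, cross0, cross1, cross2, M00, M01, M02, smul_eq_mul]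
  ring

theorem etaW_cross (z : R3) (hz : inner ℝ z z = (1 : ℝ)) (w : R3) (hw : inner ℝ z w = (0 : ℝ)) :
    etaW z (cross z w) = -(Jw z (etaW z w)) := by
  rw [inner3] at hz hw
  refine Prod.ext ?_ (Prod.ext ?_ ?_)
  · ext i
    fin_cases i
    · simp only [etaW, Jw, rowS_apply, rowV_apply, dgq, inner3, Prod.fst_neg, smul3, sub3, add3, neg3, cross0, cross1, cross2, M00, M01, M02, smul_eq_mul, Fin.zero_eta, Fin.isValue, Fin.mk_one, Fin.reduceFinMk]
      grind
    · simp only [etaW, Jw, rowS_apply, rowV_apply, dgq, inner3, Prod.fst_neg, smul3, sub3, add3, neg3, cross0, cross1, cross2, M00, M01, M02, smul_eq_mul, Fin.zero_eta, Fin.isValue, Fin.mk_one, Fin.reduceFinMk]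
      grind
    · simp only [etaW, Jw, rowS_apply, rowV_apply, dgq, inner3, Prod.fst_neg, smul3, sub3, add3, neg3, cross0, cross1, cross2, M00, M01, M02, smul_eq_mul, Fin.zero_eta, Fin.isValue, Fin.mk_one, Fin.reduceFinMk]
      grind
  · ext i
    fin_cases i
    · simp only [etaW, Jw, rowS_apply, rowV_apply, dgq, inner3, Prod.fst_neg, Prod.snd_neg, smul3, sub3, add3, neg3, cross0, cross1, cross2, M00, M01, M02, smul_eq_mul, Fin.zero_eta, Fin.isValue, Fin.mk_one, Fin.reduceFinMk]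
      grind
    · simp only [etaW, Jw, rowS_apply, rowV_apply, dgq, inner3, Prod.fst_neg, Prod.snd_neg, smul3, sub3, add3, neg3, cross0, cross1, cross2, M00, M01, M02, smul_eq_mul, Fin.zero_eta, Fin.isValue, Fin.mk_one, Fin.reduceFinMk]
      grind
    · simp only [etaW, Jw, rowS_apply, rowV_apply, dgq, inner3, Prod.fst_neg, Prod.snd_neg, smul3, sub3, add3, neg3, cross0, cross1, cross2, M00, M01, M02, smul_eq_mul, Fin.zero_eta, Fin.isValue, Fin.mk_one, Fin.reduceFinMk]
      grind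
  · ext i
    fin_cases i
    · simp only [etaW, Jw, rowS_apply, rowV_apply, dgq, inner3, Prod.fst_neg, Prod.snd_neg, smul3, sub3, add3, neg3, cross0, cross1, cross2, M00, M01, M02, smul_eq_mul, Fin.zero_eta, Fin.isValue, Fin.mk_one, Fin.reduceFinMk]
      grind
    · simp only [etaW, Jw, rowS_apply, rowV_apply, dgq, inner3, Prod.fst_neg, Prod.snd_neg, smul3, sub3, add3, neg3, cross0, cross1, cross2, M00, M01, M02, smul_eq_mul, Fin.zero_eta, Fin.isValue, Fin.mk_one, Fin.reduceFinMk]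
      grind
    · simp only [etaW, Jw, rowS_apply, rowV_apply, dgq, inner3, Prod.fst_neg, Prod.snd_neg, smul3, sub3, add3, neg3, cross0, cross1, cross2, M00, M01, M02, smul_eq_mul, Fin.zero_eta, Fin.isValue, Fin.mk_one, Fin.reduceFinMk]
      grind

theorem adjoint_id (z : R3) (hz : inner ℝ z z = (1 : ℝ)) (w : R3) (hw : inner ℝ z w = (0 : ℝ))
    (v : R3 × R3) :
    inner ℝ (M0 (cross z w)) v.1 + inner ℝ (dgq z (cross z w)) v.2
      = (inner ℝ (M0 w) (rowV z v).1 + inner ℝ (dgq z w) (rowV z v).2 : ℝ) := by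
  rw [inner3] at hz hw
  simp only [rowV_apply, dgq, inner3, smul3, sub3, add3, neg3, cross0, cross1, cross2, M00, M01, M02, smul_eq_mul]
  grind

end Pool.Agent.Helper206.Cover
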