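import Mathlib
import Pool.Agent.Helper206.Cover.Algebra

/-!
# Calculus lemmas
-/

open scoped Manifold ContDiff Topology
open Metric Set Bundle

noncomputable section

namespace Pool.Agent.Helper206.Cover

/-- coordinate expression of the form -/
def coordForm (Z : E2 → R3) (y : EY) : EY →L[ℝ] EY →L[ℝ] ℝ :=
  (formW (Z y.1)).bilinearComp ((fderiv ℝ Z y.1).prodMap (ContinuousLinearMap.id ℝ (R3 × R3)))
    ((fderiv ℝ Z y.1).prodMap (ContinuousLinearMap.id ℝ (R3 × R3)))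

/-- coordinate expression of the almost complex structure -/
def coordEndo (Z : E2 → R3) (P : E2 → R3 →L[ℝ] E2) (y : EY) : EY →L[ℝ] EY :=
  ((P y.1).comp ((rowS (Z y.1)).comp
      ((fderiv ℝ Z y.1).prodMap (ContinuousLinearMap.id ℝ (R3 × R3))))).prod
    ((rowV (Z y.1)).comp (ContinuousLinearMap.snd ℝ E2 (R3 × R3)))

/-- the cross product as a continuous bilinear map -/
private def cf_crossB : R3 →L[ℝ] R3 →L[ℝ] R3 :=
  LinearMap.toContinuousLinearMap
    { toFun := crossL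
      map_add' := by
        intro a b
        ext v i
        fin_cases i <;> simp [crossL_apply, cross] <;> ring
      map_smul' := by
        intro c a
        ext v i
        fin_cases i <;> simp [crossL_apply, cross] <;> ring }

private theorem cf_crossB_apply (z v : R3) : cf_crossB z v = cross z v := rfl

private theorem cf_apply (Z : E2 → R3) (y b c : EY) :
    coordForm Z y b c = inner ℝ (cf_crossB (Z y.1) (fderiv ℝ Z y.1 b.1)) (fderiv ℝ Z y.1 c.1)
      + (inner ℝ b.2.1 c.2.2 - inner ℝ c.2.1 b.2.2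
      + 2 * (inner ℝ (fderiv ℝ Z y.1 b.1) c.2.2 - inner ℝ (fderiv ℝ Z y.1 c.1) b.2.2)) := rfl

private theorem cf_contDiff_apply (Z : E2 → R3) (hZ : ContDiff ℝ ∞ Z) (b c : EY) :
    ContDiff ℝ ∞ (fun y => coordForm Z y b c) := by
  have h1 : ContDiff ℝ ∞ (fun y : EY => Z y.1) := hZ.comp contDiff_fst
  have h2 : ContDiff ℝ ∞ (fun y : EY => fderiv ℝ Z y.1) :=
    (hZ.fderiv_right (m := ∞) (by simp)).comp contDiff_fst
  have h3 : ∀ v : E2, ContDiff ℝ ∞ (fun y : EY => fderiv ℝ Z y.1 v) :=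
    fun v => h2.clm_apply contDiff_const
  have h4 : ContDiff ℝ ∞ (fun y : EY => cf_crossB (Z y.1) (fderiv ℝ Z y.1 b.1)) :=
    (cf_crossB.contDiff.comp h1).clm_apply (h3 b.1)
  simp only [cf_apply]
  exact (h4.inner ℝ (h3 c.1)).add (contDiff_const.add (contDiff_const.mul
    (((h3 b.1).inner ℝ contDiff_const).sub ((h3 c.1).inner ℝ contDiff_const))))

theorem contDiff_coordForm (Z : E2 → R3) (hZ : ContDiff ℝ ∞ Z) : ContDiff ℝ ∞ (coordForm Z) := by
  rw [contDiff_clm_apply_iff]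
  intro b
  rw [contDiff_clm_apply_iff]
  intro c
  exact cf_contDiff_apply Z hZ b c

private theorem cf_fderiv (Z : E2 → R3) (hZ : ContDiff ℝ ∞ Z) (y a b c : EY) :
    fderiv ℝ (coordForm Z) y a b c =
      inner ℝ (cross (fderiv ℝ Z y.1 a.1) (fderiv ℝ Z y.1 b.1)) (fderiv ℝ Z y.1 c.1)
      + inner ℝ (cross (Z y.1) (fderiv ℝ (fderiv ℝ Z) y.1 a.1 b.1)) (fderiv ℝ Z y.1 c.1)
      + inner ℝ (cross (Z y.1) (fderiv ℝ Z y.1 b.1)) (fderiv ℝ (fderiv ℝ Z) y.1 a.1 c.1)
      + 2 * (inner ℝ (fderiv ℝ (fderiv ℝ Z) y.1 a.1 b.1) c.2.2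
        - inner ℝ (fderiv ℝ (fderiv ℝ Z) y.1 a.1 c.1) b.2.2) := by
  have hd : DifferentiableAt ℝ (coordForm Z) y :=
    (contDiff_coordForm Z hZ).contDiffAt.differentiableAt (by simp)
  have hline : HasDerivAt (fun t : ℝ => y + t • a) a 0 := by
    simpa using ((hasDerivAt_id (0 : ℝ)).smul_const a).const_add y
  have e0 : y + (0 : ℝ) • a = y := by simp
  have hd0 := (hd.hasFDerivAt.clm_apply (hasFDerivAt_const b y)).clm_apply (hasFDerivAt_const c y)
  obtain ⟨L, hL, hd1⟩ : ∃ L : EY →L[ℝ] ℝ, L a = fderiv ℝ (coordForm Z) y a b c ∧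
      HasFDerivAt (fun y => coordForm Z y b c) L y := ⟨_, by simp, hd0⟩
  have hd' : HasFDerivAt (fun y => coordForm Z y b c) L (y + (0 : ℝ) • a) := by
    rw [e0]; exact hd1
  have h2 : HasDerivAt (fun t : ℝ => coordForm Z (y + t • a) b c)
      (fderiv ℝ (coordForm Z) y a b c) 0 := by
    rw [← hL]
    exact hd'.comp_hasDerivAt 0 hline
  have hline1 : HasDerivAt (fun t : ℝ => (y + t • a).1) a.1 0 := by
    simpa using ((hasDerivAt_id (0 : ℝ)).smul_const a.1).const_add y.1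
  have e1 : (y + (0 : ℝ) • a).1 = y.1 := by simp
  have hZd : HasFDerivAt Z (fderiv ℝ Z y.1) ((y + (0 : ℝ) • a).1) := by
    rw [e1]; exact (hZ.contDiffAt.differentiableAt (by simp)).hasFDerivAt
  have hZ2 : HasFDerivAt (fderiv ℝ Z) (fderiv ℝ (fderiv ℝ Z) y.1) ((y + (0 : ℝ) • a).1) := by
    rw [e1]
    exact ((hZ.fderiv_right (m := ∞) (by simp)).contDiffAt.differentiableAt (by simp)).hasFDerivAt
  have k1 : HasDerivAt (fun t : ℝ => Z (y + t • a).1) (fderiv ℝ Z y.1 a.1) 0 :=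
    hZd.comp_hasDerivAt 0 hline1
  have k2 : HasDerivAt (fun t : ℝ => fderiv ℝ Z (y + t • a).1) (fderiv ℝ (fderiv ℝ Z) y.1 a.1) 0 :=
    hZ2.comp_hasDerivAt 0 hline1
  have k3 : ∀ v : E2, HasDerivAt (fun t : ℝ => fderiv ℝ Z (y + t • a).1 v)
      (fderiv ℝ (fderiv ℝ Z) y.1 a.1 v) 0 := by
    intro v
    have := k2.clm_apply (hasDerivAt_const (0 : ℝ) v)
    simpa using this
  have k4 : HasDerivAt (fun t : ℝ => cf_crossB (Z (y + t • a).1)) (cf_crossB (fderiv ℝ Z y.1 a.1)) 0 :=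
    cf_crossB.hasFDerivAt.comp_hasDerivAt 0 k1
  have k5 := k4.clm_apply (k3 b.1)
  have k6 := k5.inner ℝ (k3 c.1)
  have k7 := (k3 b.1).inner ℝ (hasDerivAt_const (0 : ℝ) c.2.2)
  have k8 := (k3 c.1).inner ℝ (hasDerivAt_const (0 : ℝ) b.2.2)
  have k9 := k6.add (((k7.sub k8).const_mul (2 : ℝ)).const_add
    (inner ℝ b.2.1 c.2.2 - inner ℝ c.2.1 b.2.2))
  have k10 := h2.unique k9
  rw [k10]
  simp only [e0, inner_zero_right, zero_add, add_zero, cf_crossB_apply, inner_add_left]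
  ring

private theorem cf_orth (Z : E2 → R3) (hZ : ContDiff ℝ ∞ Z) (h1 : ∀ y, ‖Z y‖ = 1) (y v : E2) :
    inner ℝ (Z y) (fderiv ℝ Z y v) = (0 : ℝ) := by
  have hd : DifferentiableAt ℝ Z y := hZ.contDiffAt.differentiableAt (by simp)
  have h2 : (fun y => inner ℝ (Z y) (Z y)) = fun _ => (1 : ℝ) := by
    funext x
    rw [real_inner_self_eq_norm_sq, h1]; norm_num
  have h3 := fderiv_inner_apply ℝ hd hd v
  rw [h2] at h3
  rw [real_inner_comm (Z y) (fderiv ℝ Z y v)] at h3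
  simp at h3
  have h4 := real_inner_comm (Z y) (fderiv ℝ Z y v)
  linarith

private theorem cf_inner (a b : R3) : inner ℝ a b = a 0 * b 0 + a 1 * b 1 + a 2 * b 2 := by
  rw [PiLp.inner_apply, Fin.sum_univ_three]
  simp [mul_comm]

private theorem cf_cross0 (a b : R3) : (cross a b) 0 = a 1 * b 2 - a 2 * b 1 := rfl
private theorem cf_cross1 (a b : R3) : (cross a b) 1 = a 2 * b 0 - a 0 * b 2 := rfl
private theorem cf_cross2 (a b : R3) : (cross a b) 2 = a 0 * b 1 - a 1 * b 0 := rfl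

private theorem cf_det (z p q r : R3) (hz : ‖z‖ = 1) (hp : inner ℝ z p = (0 : ℝ))
    (hq : inner ℝ z q = (0 : ℝ)) (hr : inner ℝ z r = (0 : ℝ)) :
    inner ℝ (cross p q) r = (0 : ℝ) := by
  have h1 : inner ℝ z z = (1 : ℝ) := by rw [real_inner_self_eq_norm_sq, hz]; norm_num
  rw [cf_inner] at h1 hp hq hr
  rw [cf_inner, cf_cross0, cf_cross1, cf_cross2]
  linear_combination (-((p 1 * q 2 - p 2 * q 1) * r 0 + (p 2 * q 0 - p 0 * q 2) * r 1
      + (p 0 * q 1 - p 1 * q 0) * r 2)) * h1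
    + (z 0 * (q 1 * r 2 - q 2 * r 1) - z 1 * (q 0 * r 2 - q 2 * r 0)
      + z 2 * (q 0 * r 1 - q 1 * r 0)) * hp
    - (z 0 * (p 1 * r 2 - p 2 * r 1) - z 1 * (p 0 * r 2 - p 2 * r 0)
      + z 2 * (p 0 * r 1 - p 1 * r 0)) * hq
    + (z 0 * (p 1 * q 2 - p 2 * q 1) - z 1 * (p 0 * q 2 - p 2 * q 0)
      + z 2 * (p 0 * q 1 - p 1 * q 0)) * hr

theorem closed_coordForm (Z : E2 → R3) (hZ : ContDiff ℝ ∞ Z) (h1 : ∀ y, ‖Z y‖ = 1)
    (y a b c : EY) :
    fderiv ℝ (coordForm Z) y a b c + fderiv ℝ (coordForm Z) y b c a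
      + fderiv ℝ (coordForm Z) y c a b = 0 := by
  rw [cf_fderiv Z hZ, cf_fderiv Z hZ, cf_fderiv Z hZ]
  have hs : ∀ u v : E2, fderiv ℝ (fderiv ℝ Z) y.1 u v = fderiv ℝ (fderiv ℝ Z) y.1 v u := by
    have h : IsSymmSndFDerivAt ℝ Z y.1 := by
      apply (hZ.contDiffAt (x := y.1)).isSymmSndFDerivAt
      rw [minSmoothness_of_isRCLikeNormedField]
      exact ENat.LEInfty.out
    exact fun u v => h u v
  rw [hs b.1 a.1, hs c.1 a.1, hs c.1 b.1]
  have d1 := cf_det (Z y.1) _ _ _ (h1 y.1) (cf_orth Z hZ h1 y.1 a.1) (cf_orth Z hZ h1 y.1 b.1)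
    (cf_orth Z hZ h1 y.1 c.1)
  have d2 := cf_det (Z y.1) _ _ _ (h1 y.1) (cf_orth Z hZ h1 y.1 b.1) (cf_orth Z hZ h1 y.1 c.1)
    (cf_orth Z hZ h1 y.1 a.1)
  have d3 := cf_det (Z y.1) _ _ _ (h1 y.1) (cf_orth Z hZ h1 y.1 c.1) (cf_orth Z hZ h1 y.1 a.1)
    (cf_orth Z hZ h1 y.1 b.1)
  rw [d1, d2, d3]
  simp only [cf_inner, cf_cross0, cf_cross1, cf_cross2]
  ring

theorem contDiff_cross {F : Type*} [NormedAddCommGroup F] [NormedSpace ℝ F] {f g : F → R3}
    (hf : ContDiff ℝ ∞ f) (hg : ContDiff ℝ ∞ g) : ContDiff ℝ ∞ (fun x => cross (f x) (g x)) := by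
  have hf' := contDiff_euclidean.mp hf
  have hg' := contDiff_euclidean.mp hg
  rw [contDiff_euclidean]
  intro i
  fin_cases i
  · exact ((hf' 1).mul (hg' 2)).sub ((hf' 2).mul (hg' 1))
  · exact ((hf' 2).mul (hg' 0)).sub ((hf' 0).mul (hg' 2))
  · exact ((hf' 0).mul (hg' 1)).sub ((hf' 1).mul (hg' 0))

theorem contDiff_coordEndo (Z : E2 → R3) (hZ : ContDiff ℝ ∞ Z) (P : E2 → R3 →L[ℝ] E2)
    (hP : ContDiff ℝ ∞ P) : ContDiff ℝ ∞ (coordEndo Z P) := by
  rw [contDiff_clm_apply_iff]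
  intro v
  have hz : ContDiff ℝ ∞ (fun y : EY => Z y.1) := hZ.comp contDiff_fst
  have hd : ContDiff ℝ ∞ (fderiv ℝ Z) := hZ.fderiv_right (by simp)
  have hd1 : ContDiff ℝ ∞ (fun y : EY => fderiv ℝ Z y.1 v.1) :=
    (hd.comp contDiff_fst).clm_apply contDiff_const
  have hS : ContDiff ℝ ∞ (fun y : EY => rowS (Z y.1) (fderiv ℝ Z y.1 v.1, v.2)) := by
    have : (fun y : EY => rowS (Z y.1) (fderiv ℝ Z y.1 v.1, v.2)) = fun y : EY =>
        cross (Z y.1) (fderiv ℝ Z y.1 v.1) - (2 : ℝ) • cross (Z y.1) v.2.1 - (6 : ℝ) • v.2.2 := by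
      funext y
      rw [rowS_apply]
    rw [this]
    exact ((contDiff_cross hz hd1).sub ((contDiff_cross hz contDiff_const).const_smul (2 : ℝ))).sub
      contDiff_const
  have hV : ContDiff ℝ ∞ (fun y : EY => rowV (Z y.1) v.2) := by
    have : (fun y : EY => rowV (Z y.1) v.2) = fun y : EY =>
        ((2 : ℝ) • cross (Z y.1) v.2.1 + (3 : ℝ) • v.2.2 - (4 : ℝ) • (inner ℝ (Z y.1) v.2.2) • (Z y.1),
          v.2.1 - (2 : ℝ) • cross (Z y.1) v.2.2) := by
      funext y
      rw [rowV_apply]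
    rw [this]
    apply ContDiff.prodMk
    · refine ((((contDiff_cross hz contDiff_const).const_smul (2 : ℝ))).add contDiff_const).sub ?_
      exact ((hz.inner ℝ contDiff_const).smul hz).const_smul (4 : ℝ)
    · exact contDiff_const.sub ((contDiff_cross hz contDiff_const).const_smul (2 : ℝ))
  have hP1 : ContDiff ℝ ∞ (fun y : EY => P y.1) := hP.comp contDiff_fst
  exact (hP1.clm_apply hS).prodMk hV

theorem contDiff_pinv (Z : E2 → R3) (hZ : ContDiff ℝ ∞ Z)
    (hinj : ∀ y, Function.Injective (fderiv ℝ Z y)) (P : E2 → R3 →L[ℝ] E2)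
    (hP : ∀ y v, fderiv ℝ Z y (P y v) = v - (inner ℝ (Z y) v) • Z y) :
    ContDiff ℝ ∞ P := by
  let adj : (E2 →L[ℝ] R3) →L[ℝ] (R3 →L[ℝ] E2) := LinearMap.mkContinuous
    { toFun := fun A => ContinuousLinearMap.adjoint A
      map_add' := fun A B => map_add _ A B
      map_smul' := by
        intro c A
        simp } 1 (by
        intro A
        simp)
  have hadj : ∀ A, adj A = ContinuousLinearMap.adjoint A := fun A => rfl
  let G : E2 → (E2 →L[ℝ] E2) := fun y => (adj (fderiv ℝ Z y)).comp (fderiv ℝ Z y)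
  have hfd : ContDiff ℝ ∞ (fderiv ℝ Z) := hZ.fderiv_right (m := ∞) (by simp)
  have hadjc : ContDiff ℝ ∞ (fun y => adj (fderiv ℝ Z y)) := adj.contDiff.comp hfd
  have hG : ContDiff ℝ ∞ G := hadjc.clm_comp hfd
  have hGinj : ∀ y, Function.Injective (G y) := by
    intro y
    rw [injective_iff_map_eq_zero]
    intro v hv
    have h1 : inner ℝ (G y v) v = ‖fderiv ℝ Z y v‖ ^ 2 := by
      simp only [G, hadj, ContinuousLinearMap.comp_apply]
      rw [ContinuousLinearMap.adjoint_inner_left, real_inner_self_eq_norm_sq]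
    rw [hv, inner_zero_left] at h1
    have h2 : fderiv ℝ Z y v = 0 := by
      have := h1.symm
      simpa using this
    exact (injective_iff_map_eq_zero _).1 (hinj y) v h2
  have hunit : ∀ y, IsUnit (G y) := by
    intro y
    have hker : LinearMap.ker (G y : E2 →ₗ[ℝ] E2) = ⊥ := LinearMap.ker_eq_bot.2 (hGinj y)
    have hu : IsUnit (G y : E2 →ₗ[ℝ] E2) := LinearMap.isUnit_iff_ker_eq_bot _ |>.2 hker
    rw [ContinuousLinearMap.isUnit_iff_bijective]
    exact ⟨hGinj y, (LinearMap.injective_iff_surjective (f := (G y : E2 →ₗ[ℝ] E2))).1 (hGinj y)⟩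
  have hinv : ContDiff ℝ ∞ (fun y => Ring.inverse (G y)) := by
    rw [contDiff_iff_contDiffAt]
    intro y
    obtain ⟨u, hu⟩ := hunit y
    have h4 : ContDiffAt ℝ ∞ (Ring.inverse : (E2 →L[ℝ] E2) → (E2 →L[ℝ] E2)) (G y) := by
      rw [← hu]
      exact contDiffAt_ringInverse ℝ u
    exact h4.comp y hG.contDiffAt
  have hproj : ContDiff ℝ ∞ (fun y => (ContinuousLinearMap.id ℝ R3 -
      (innerSL ℝ (Z y)).smulRight (Z y) : R3 →L[ℝ] R3)) := by
    apply contDiff_const.sub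
    apply ContDiff.smulRight
    · exact (innerSL ℝ).contDiff.comp hZ
    · exact hZ
  have hPeq : P = fun y => (Ring.inverse (G y)).comp ((adj (fderiv ℝ Z y)).comp
      (ContinuousLinearMap.id ℝ R3 - (innerSL ℝ (Z y)).smulRight (Z y))) := by
    ext1 y
    ext1 v
    have h1 : G y (P y v) = adj (fderiv ℝ Z y) (v - (inner ℝ (Z y) v) • Z y) := by
      simp only [G, ContinuousLinearMap.comp_apply, hP]
    have h2 : Ring.inverse (G y) (G y (P y v)) = P y v := by
      have h3 := Ring.inverse_mul_cancel _ (hunit y)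
      have h4 := congrArg (fun T : E2 →L[ℝ] E2 => T (P y v)) h3
      exact h4
    rw [← h2, h1]
    rfl
  rw [hPeq]
  exact hinv.clm_comp (hadjc.clm_comp hproj)

/-- spherical coordinates -/
def sph (q : ℝ × ℝ) : R3 :=
  !₂[Real.sin q.2 * Real.cos q.1, Real.sin q.2 * Real.sin q.1, Real.cos q.2]
/-- derivative in the first spherical coordinate -/
def sph1 (q : ℝ × ℝ) : R3 :=
  !₂[-(Real.sin q.2 * Real.sin q.1), Real.sin q.2 * Real.cos q.1, 0]
/-- derivative in the second spherical coordinate -/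
def sph2 (q : ℝ × ℝ) : R3 :=
  !₂[Real.cos q.2 * Real.cos q.1, Real.cos q.2 * Real.sin q.1, -Real.sin q.2]

/-- Stokes' theorem on the sphere in spherical coordinates. -/
theorem stokes_sph (g s : ℝ × ℝ → ℝ) (hg : ContDiff ℝ 2 g) (hs : ContDiff ℝ 1 s)
    (hgper : ∀ q : ℝ × ℝ, g (q.1 + 2 * Real.pi, q.2) = g q)
    (hsper : ∀ q : ℝ × ℝ, s (q.1 + 2 * Real.pi, q.2) = s q)
    (h0 : ∀ t, fderiv ℝ g (t, 0) (1, 0) = 0) (h1 : ∀ t, fderiv ℝ g (t, Real.pi) (1, 0) = 0) :
    ∫ t in (0 : ℝ)..(2 * Real.pi), ∫ p in (0 : ℝ)..Real.pi,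
      (fderiv ℝ g (t, p) (0, 1) * fderiv ℝ s (t, p) (1, 0)
        - fderiv ℝ g (t, p) (1, 0) * fderiv ℝ s (t, p) (0, 1)) = 0 := by
  have hdg : ContDiff ℝ 1 (fderiv ℝ g) := hg.fderiv_right (by norm_num)
  have hdgd : Differentiable ℝ (fderiv ℝ g) := hdg.differentiable (by norm_num)
  have hsd : Differentiable ℝ s := hs.differentiable (by norm_num)
  have hsdc : Continuous (fderiv ℝ s) := hs.continuous_fderiv (by norm_num)
  have hdgc : Continuous (fderiv ℝ g) := hdg.continuous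
  have hddgc : Continuous (fderiv ℝ (fderiv ℝ g)) := hdg.continuous_fderiv (by norm_num)
  have hsc : Continuous s := hs.continuous
  have hsymm : ∀ x : ℝ × ℝ, ∀ v w : ℝ × ℝ,
      fderiv ℝ (fderiv ℝ g) x v w = fderiv ℝ (fderiv ℝ g) x w v := by
    intro x v w
    have := (hg.contDiffAt (x := x)).isSymmSndFDerivAt (by simp [minSmoothness])
    exact this v w
  -- directional derivative functions
  have hD : ∀ v : ℝ × ℝ, ∀ x : ℝ × ℝ, HasFDerivAt (fun y => fderiv ℝ g y v)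
      ((ContinuousLinearMap.apply ℝ ℝ v).comp (fderiv ℝ (fderiv ℝ g) x)) x := by
    intro v x
    exact (ContinuousLinearMap.apply ℝ ℝ v).hasFDerivAt.comp x (hdgd x).hasFDerivAt
  have hF : ∀ v : ℝ × ℝ, ∀ x : ℝ × ℝ, HasFDerivAt (fun y => fderiv ℝ g y v * s y)
      (fderiv ℝ g x v • fderiv ℝ s x +
        s x • ((ContinuousLinearMap.apply ℝ ℝ v).comp (fderiv ℝ (fderiv ℝ g) x))) x := by
    intro v x
    exact (hD v x).mul (hsd x).hasFDerivAt
  have hper' : ∀ q : ℝ × ℝ, fderiv ℝ g (q.1 + 2 * Real.pi, q.2) = fderiv ℝ g q := by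
    intro q
    have e : g = fun x => g (x + (2 * Real.pi, 0)) := by
      funext x
      have := hgper x
      rw [← this]
      congr 1
      ext <;> simp
    conv_rhs => rw [e]
    rw [fderiv_comp_add_right]
    congr 1
    ext <;> simp
  have key := MeasureTheory.integral2_divergence_prod_of_hasFDerivAt_off_countable
    (fun y => fderiv ℝ g y (0, 1) * s y) (fun y => - (fderiv ℝ g y (1, 0) * s y))
    (fun x => (fderiv ℝ g x (0, 1) • fderiv ℝ s x +
        s x • ((ContinuousLinearMap.apply ℝ ℝ ((0, 1) : ℝ × ℝ)).comp (fderiv ℝ (fderiv ℝ g) x))))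
    (fun x => - (fderiv ℝ g x (1, 0) • fderiv ℝ s x +
        s x • ((ContinuousLinearMap.apply ℝ ℝ ((1, 0) : ℝ × ℝ)).comp (fderiv ℝ (fderiv ℝ g) x))))
    0 0 (2 * Real.pi) Real.pi ∅ Set.countable_empty
    (by fun_prop) (by fun_prop)
    (fun x _ => hF _ x) (fun x _ => (hF _ x).neg)
    (by
      apply ContinuousOn.integrableOn_compact
      · exact isCompact_uIcc.prod isCompact_uIcc
      · apply Continuous.continuousOn
        simp only [ContinuousLinearMap.add_apply, ContinuousLinearMap.smul_apply,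
          ContinuousLinearMap.neg_apply, ContinuousLinearMap.comp_apply,
          ContinuousLinearMap.apply_apply, smul_eq_mul]
        fun_prop)
  have e1 : ∀ t p : ℝ, (fderiv ℝ g (t, p) (0, 1) * fderiv ℝ s (t, p) (1, 0)
        - fderiv ℝ g (t, p) (1, 0) * fderiv ℝ s (t, p) (0, 1)) =
      (fderiv ℝ g (t, p) (0, 1) • fderiv ℝ s (t, p) +
        s (t, p) • ((ContinuousLinearMap.apply ℝ ℝ ((0, 1) : ℝ × ℝ)).comp
          (fderiv ℝ (fderiv ℝ g) (t, p)))) (1, 0) +
      (- (fderiv ℝ g (t, p) (1, 0) • fderiv ℝ s (t, p) +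
        s (t, p) • ((ContinuousLinearMap.apply ℝ ℝ ((1, 0) : ℝ × ℝ)).comp
          (fderiv ℝ (fderiv ℝ g) (t, p))))) (0, 1) := by
    intro t p
    simp only [ContinuousLinearMap.add_apply, ContinuousLinearMap.smul_apply,
          ContinuousLinearMap.neg_apply, ContinuousLinearMap.comp_apply,
          ContinuousLinearMap.apply_apply, smul_eq_mul]
    rw [hsymm (t, p) (1, 0) (0, 1)]
    ring
  simp only [e1]
  rw [key]
  have b1 : ∀ y : ℝ, fderiv ℝ g (2 * Real.pi, y) (0, 1) * s (2 * Real.pi, y)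
      = fderiv ℝ g (0, y) (0, 1) * s (0, y) := by
    intro y
    have q1 := hper' (0, y)
    have q2 := hsper (0, y)
    simp only [zero_add] at q1 q2
    rw [q1, q2]
  simp only [b1, h0, h1]
  simp

/-- the function whose differential spans the cokernel, in spherical coordinates -/
def gS (q : ℝ × ℝ) : R3 × R3 := (M0 (sph q), cross (sph q) (M0 (sph q)))

def cj_M0L : R3 →L[ℝ] R3 :=
  LinearMap.toContinuousLinearMap
    { toFun := M0
      map_add' := by
        intro a b; ext i; fin_cases i <;> simp [M0] <;> ring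
      map_smul' := by
        intro c a; ext i; fin_cases i <;> simp [M0] }

theorem cj_M0L_apply (v : R3) : cj_M0L v = M0 v := rfl

def cj_crossB : R3 →L[ℝ] R3 →L[ℝ] R3 :=
  LinearMap.toContinuousLinearMap
    { toFun := fun z => crossL z
      map_add' := by
        intro a b; ext v i; fin_cases i <;> simp [crossL_apply, cross] <;> ring
      map_smul' := by
        intro c a; ext v i; fin_cases i <;> simp [crossL_apply, cross] <;> ring }

theorem cj_crossB_apply (v w : R3) : cj_crossB v w = cross v w := rfl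

def cj_sph' (q : ℝ × ℝ) : ℝ × ℝ →L[ℝ] R3 :=
  (ContinuousLinearMap.fst ℝ ℝ ℝ).smulRight (sph1 q) +
    (ContinuousLinearMap.snd ℝ ℝ ℝ).smulRight (sph2 q)

theorem cj_sph (q : ℝ × ℝ) : HasFDerivAt sph (cj_sph' q) q := by
  have h1 : HasFDerivAt (fun q : ℝ × ℝ => q.1) (ContinuousLinearMap.fst ℝ ℝ ℝ) q :=
    hasFDerivAt_fst
  have h2 : HasFDerivAt (fun q : ℝ × ℝ => q.2) (ContinuousLinearMap.snd ℝ ℝ ℝ) q :=
    hasFDerivAt_snd
  rw [← hasFDerivWithinAt_univ, hasFDerivWithinAt_euclidean]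
  intro i
  rw [hasFDerivWithinAt_univ]
  fin_cases i
  · have h := h2.sin.mul h1.cos
    refine h.congr_fderiv ?_
    ext <;> simp [cj_sph', sph1, sph2] <;> ring
  · have h := h2.sin.mul h1.sin
    refine h.congr_fderiv ?_
    ext <;> simp [cj_sph', sph1, sph2] <;> ring
  · have h := h2.cos
    refine h.congr_fderiv ?_
    ext <;> simp [cj_sph', sph1, sph2]

theorem cj_gS (q : ℝ × ℝ) : HasFDerivAt gS ((cj_M0L.comp (cj_sph' q)).prod
    (cj_crossB.precompR (ℝ × ℝ) (sph q) (cj_M0L.comp (cj_sph' q)) +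
      cj_crossB.precompL (ℝ × ℝ) (cj_sph' q) (M0 (sph q)))) q := by
  have h1 : HasFDerivAt (fun q => cj_M0L (sph q)) (cj_M0L.comp (cj_sph' q)) q :=
    cj_M0L.hasFDerivAt.comp q (cj_sph q)
  exact h1.prodMk (ContinuousLinearMap.hasFDerivAt_of_bilinear cj_crossB (cj_sph q) h1)

theorem contDiff_gS : ContDiff ℝ ∞ gS := by
  have h0 : ContDiff ℝ ∞ sph := by
    rw [contDiff_euclidean]
    intro i
    fin_cases i
    · show ContDiff ℝ ∞ fun q : ℝ × ℝ => Real.sin q.2 * Real.cos q.1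
      fun_prop
    · show ContDiff ℝ ∞ fun q : ℝ × ℝ => Real.sin q.2 * Real.sin q.1
      fun_prop
    · show ContDiff ℝ ∞ fun q : ℝ × ℝ => Real.cos q.2
      fun_prop
  have h1 : ContDiff ℝ ∞ (fun q => M0 (sph q)) := cj_M0L.contDiff.comp h0
  have h2 : ContDiff ℝ ∞ (fun q => cross (sph q) (M0 (sph q))) :=
    (cj_crossB.contDiff.comp h0).clm_apply h1
  exact h1.prodMk h2

theorem cj_fst (q : ℝ × ℝ) : cj_sph' q (1, 0) = sph1 q := by
  simp [cj_sph']

theorem cj_snd (q : ℝ × ℝ) : cj_sph' q (0, 1) = sph2 q := by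
  simp [cj_sph']

theorem cj_apply (q v : ℝ × ℝ) :
    fderiv ℝ gS q v = (M0 (cj_sph' q v), dgq (sph q) (cj_sph' q v)) := by
  rw [(cj_gS q).fderiv]
  show (M0 (cj_sph' q v), cross (sph q) (M0 (cj_sph' q v)) +
    cross (cj_sph' q v) (M0 (sph q))) = _
  rw [add_comm (cross (sph q) _)]
  rfl

theorem fderiv_gS_fst (q : ℝ × ℝ) :
    fderiv ℝ gS q (1, 0) = (M0 (sph1 q), dgq (sph q) (sph1 q)) := by
  rw [cj_apply, cj_fst]

theorem fderiv_gS_snd (q : ℝ × ℝ) :
    fderiv ℝ gS q (0, 1) = (M0 (sph2 q), dgq (sph q) (sph2 q)) := by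
  rw [cj_apply, cj_snd]

theorem inner_r3 (a b : R3) : inner ℝ a b = a 0 * b 0 + a 1 * b 1 + a 2 * b 2 := by
  rw [PiLp.inner_apply, Fin.sum_univ_three]
  simp only [RCLike.inner_apply, conj_trivial]
  ring

theorem M0_smul (t : ℝ) (u : R3) : M0 (t • u) = t • M0 u := by
  ext i; fin_cases i <;> simp [M0]

theorem cross_smul (t : ℝ) (a u : R3) : cross a (t • u) = t • cross a u := by
  ext i; fin_cases i <;> simp [cross] <;> ring

theorem smul_cross (t : ℝ) (a u : R3) : cross (t • u) a = t • cross u a := by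
  ext i; fin_cases i <;> simp [cross] <;> ring

theorem dgq_smul (t : ℝ) (z u : R3) : dgq z (t • u) = t • dgq z u := by
  unfold dgq
  rw [M0_smul, cross_smul, smul_cross, smul_add]

theorem cross_sph (q : ℝ × ℝ) : Real.sin q.2 • cross (sph q) (sph2 q) = sph1 q := by
  have h2 := Real.sin_sq_add_cos_sq q.2
  ext i
  fin_cases i
  · simp [cross, sph, sph1, sph2]
    linear_combination (-(Real.sin q.2 * Real.sin q.1)) * h2
  · simp [cross, sph, sph1, sph2]
    left
    linear_combination (Real.cos q.1) * h2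
  · simp [cross, sph, sph1, sph2]
    ring_nf
    simp

theorem sph_unit (q : ℝ × ℝ) : inner ℝ (sph q) (sph q) = (1 : ℝ) := by
  have h1 := Real.sin_sq_add_cos_sq q.1
  have h2 := Real.sin_sq_add_cos_sq q.2
  rw [inner_r3]
  simp [sph]
  linear_combination (Real.sin q.2 ^ 2) * h1 + h2

theorem sph_orth (q : ℝ × ℝ) : inner ℝ (sph q) (sph2 q) = (0 : ℝ) := by
  have h1 := Real.sin_sq_add_cos_sq q.1
  rw [inner_r3]
  simp [sph, sph2]
  linear_combination (Real.sin q.2 * Real.cos q.2) * h1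

theorem pointwise_id (q : ℝ × ℝ) (A B : R3 × R3)
    (h : (1 / 2 : ℝ) • (A - Real.sin q.2 • rowV (sph q) B) = (etaW (sph q) (sph1 q)).2) :
    (inner ℝ (M0 (sph2 q)) A.1 + inner ℝ (dgq (sph q) (sph2 q)) A.2 : ℝ)
      - (inner ℝ (M0 (sph1 q)) B.1 + inner ℝ (dgq (sph q) (sph1 q)) B.2)
      = 2 * (inner ℝ (M0 (sph2 q)) (etaW (sph q) (sph1 q)).2.1
        + inner ℝ (dgq (sph q) (sph2 q)) (etaW (sph q) (sph1 q)).2.2) := by
  have hA : A = (2 : ℝ) • (etaW (sph q) (sph1 q)).2 + Real.sin q.2 • rowV (sph q) B := by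
    rw [← h, smul_smul]
    norm_num
  have hadj := adjoint_id (sph q) (sph_unit q) (sph2 q) (sph_orth q) B
  have hs1 : M0 (sph1 q) = Real.sin q.2 • M0 (cross (sph q) (sph2 q)) := by
    rw [← M0_smul, cross_sph]
  have hs2 : dgq (sph q) (sph1 q) = Real.sin q.2 • dgq (sph q) (cross (sph q) (sph2 q)) := by
    rw [← dgq_smul, cross_sph]
  rw [hs1, hs2, real_inner_smul_left, real_inner_smul_left]
  have h1 : A.1 = (2 : ℝ) • (etaW (sph q) (sph1 q)).2.1 + Real.sin q.2 • (rowV (sph q) B).1 := by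
    rw [hA]; rfl
  have h2 : A.2 = (2 : ℝ) • (etaW (sph q) (sph1 q)).2.2 + Real.sin q.2 • (rowV (sph q) B).2 := by
    rw [hA]; rfl
  rw [h1, h2, inner_add_right, inner_add_right, real_inner_smul_right, real_inner_smul_right,
    real_inner_smul_right, real_inner_smul_right]
  linear_combination (-Real.sin q.2) * hadj

theorem pointwise_eq (c s C S : ℝ) (h1 : s ^ 2 + c ^ 2 = 1) (h2 : S ^ 2 + C ^ 2 = 1) :
    (inner ℝ (M0 !₂[C * c, C * s, -S]) (dgq !₂[S * c, S * s, C] !₂[-(S * s), S * c, 0]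
        - (4 : ℝ) • cross !₂[S * c, S * s, C] (M0 !₂[-(S * s), S * c, 0]))
      + inner ℝ (dgq !₂[S * c, S * s, C] !₂[C * c, C * s, -S]) (-M0 !₂[-(S * s), S * c, 0]) : ℝ)
      = -(S * (1 + C ^ 2)) := by
  rw [inner_r3, inner_r3]
  simp [M0, dgq, cross]
  linear_combination ((-2) * C ^ 2 * S ^ 1 + (-1) * S ^ 3) * h1 + ((-1) * S ^ 1) * h2

theorem pointwise_neg (q : ℝ × ℝ) (hq : 0 ≤ Real.sin q.2) :
    (inner ℝ (M0 (sph2 q)) (etaW (sph q) (sph1 q)).2.1
        + inner ℝ (dgq (sph q) (sph2 q)) (etaW (sph q) (sph1 q)).2.2 : ℝ)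
      ≤ -(Real.sin q.2 * Real.cos q.2 ^ 2) := by
  have h := pointwise_eq (Real.cos q.1) (Real.sin q.1) (Real.cos q.2) (Real.sin q.2)
    (Real.sin_sq_add_cos_sq q.1) (Real.sin_sq_add_cos_sq q.2)
  refine (le_of_eq h).trans ?_
  nlinarith

/-- The analytic heart: there is no smooth `S` on the sphere (in spherical coordinates) with
`½ (dS + J dS ∘ j) = η`. -/
theorem no_solution (S : ℝ × ℝ → R3 × R3) (hS : ContDiff ℝ 1 S)
    (hper : ∀ q : ℝ × ℝ, S (q.1 + 2 * Real.pi, q.2) = S q)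
    (heq : ∀ q : ℝ × ℝ, (1 / 2 : ℝ) • (fderiv ℝ S q (1, 0)
      - Real.sin q.2 • rowV (sph q) (fderiv ℝ S q (0, 1))) = (etaW (sph q) (sph1 q)).2) :
    False := by
  have hgd : ContDiff ℝ 2 gS := by exact_mod_cast contDiff_infty.mp contDiff_gS 2
  have hgdiff : Differentiable ℝ gS := hgd.differentiable (by norm_num)
  have hSdiff : Differentiable ℝ S := hS.differentiable (by norm_num)
  have hgc : Continuous (fderiv ℝ gS) := hgd.continuous_fderiv (by norm_num)
  have hSc : Continuous (fderiv ℝ S) := hS.continuous_fderiv (by norm_num)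
  have hgper : ∀ q : ℝ × ℝ, gS (q.1 + 2 * Real.pi, q.2) = gS q := by
    intro q
    have hs : sph (q.1 + 2 * Real.pi, q.2) = sph q := by
      ext i
      fin_cases i <;> simp [sph]
    simp only [gS, hs]
  have hM0 : M0 0 = 0 := by
    ext i; fin_cases i <;> simp [M0]
  have hc1 : ∀ v : R3, cross 0 v = 0 := by
    intro v; ext i; fin_cases i <;> simp [cross]
  have hc2 : ∀ v : R3, cross v 0 = 0 := by
    intro v; ext i; fin_cases i <;> simp [cross]
  have hz : ∀ q : ℝ × ℝ, Real.sin q.2 = 0 → fderiv ℝ gS q (1, 0) = 0 := by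
    intro q hq
    have h1 : sph1 q = 0 := by
      ext i
      fin_cases i <;> simp [sph1, hq]
    rw [fderiv_gS_fst, h1]
    simp [hM0, dgq, hc1, hc2]
  set G : ((R3 × R3) →L[ℝ] ℝ) → ℝ → ℝ → ℝ := fun L t p =>
    L (fderiv ℝ gS (t, p) (0, 1)) * L (fderiv ℝ S (t, p) (1, 0))
      - L (fderiv ℝ gS (t, p) (1, 0)) * L (fderiv ℝ S (t, p) (0, 1)) with hG
  have hGc : ∀ L, Continuous (Function.uncurry (G L)) := by
    intro L
    have e1 : ∀ v : ℝ × ℝ, Continuous fun q : ℝ × ℝ => L (fderiv ℝ gS q v) := fun v =>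
      L.continuous.comp (hgc.clm_apply continuous_const)
    have e2 : ∀ v : ℝ × ℝ, Continuous fun q : ℝ × ℝ => L (fderiv ℝ S q v) := fun v =>
      L.continuous.comp (hSc.clm_apply continuous_const)
    exact ((e1 _).mul (e2 _)).sub ((e1 _).mul (e2 _))
  have key : ∀ L : (R3 × R3) →L[ℝ] ℝ,
      ∫ t in (0 : ℝ)..(2 * Real.pi), ∫ p in (0 : ℝ)..Real.pi, G L t p = 0 := by
    intro L
    have fg : ∀ q v, fderiv ℝ (fun x => L (gS x)) q v = L (fderiv ℝ gS q v) := by
      intro q v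
      have := (L.hasFDerivAt.comp q (hgdiff q).hasFDerivAt).fderiv
      have e : fderiv ℝ (fun x => L (gS x)) q = L.comp (fderiv ℝ gS q) := this
      rw [e]; rfl
    have fs : ∀ q v, fderiv ℝ (fun x => L (S x)) q v = L (fderiv ℝ S q v) := by
      intro q v
      have := (L.hasFDerivAt.comp q (hSdiff q).hasFDerivAt).fderiv
      have e : fderiv ℝ (fun x => L (S x)) q = L.comp (fderiv ℝ S q) := this
      rw [e]; rfl
    have h := stokes_sph (fun x => L (gS x)) (fun x => L (S x))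
      (L.contDiff.comp hgd) (L.contDiff.comp hS)
      (fun q => by simp only [hgper q]) (fun q => by simp only [hper q])
      (fun t => by rw [fg, hz _ (by simp)]; simp)
      (fun t => by rw [fg, hz _ (by simp)]; simp)
    simp only [fg, fs] at h
    exact h
  set Ls : Fin 3 ⊕ Fin 3 → ((R3 × R3) →L[ℝ] ℝ) := Sum.elim
    (fun i => (EuclideanSpace.proj i : R3 →L[ℝ] ℝ).comp (ContinuousLinearMap.fst ℝ R3 R3))
    (fun i => (EuclideanSpace.proj i : R3 →L[ℝ] ℝ).comp (ContinuousLinearMap.snd ℝ R3 R3)) with hLs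
  have hpr : ∀ (i : Fin 3) (v : R3), (EuclideanSpace.proj i : R3 →L[ℝ] ℝ) v = v i := fun _ _ => rfl
  have hsum : ∀ a b : R3 × R3, ∑ j, Ls j a * Ls j b = (inner ℝ a.1 b.1 + inner ℝ a.2 b.2 : ℝ) := by
    intro a b
    simp only [hLs, Fintype.sum_sum_type, Sum.elim_inl, Sum.elim_inr, Fin.sum_univ_three,
      ContinuousLinearMap.comp_apply, ContinuousLinearMap.coe_fst', ContinuousLinearMap.coe_snd',
      hpr, PiLp.inner_apply, RCLike.inner_apply, conj_trivial]
    ring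
  set F : ℝ → ℝ → ℝ := fun t p => ∑ j, G (Ls j) t p with hF
  have hFc : Continuous (Function.uncurry F) := by
    have : Function.uncurry F = fun q : ℝ × ℝ => ∑ j, Function.uncurry (G (Ls j)) q := by
      funext q; rfl
    rw [this]
    exact continuous_finsetSum _ fun j _ => hGc _
  have hFval : ∀ t p, F t p = 2 * (inner ℝ (M0 (sph2 (t, p))) (etaW (sph (t, p)) (sph1 (t, p))).2.1
        + inner ℝ (dgq (sph (t, p)) (sph2 (t, p))) (etaW (sph (t, p)) (sph1 (t, p))).2.2) := by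
    intro t p
    have h := pointwise_id (t, p) (fderiv ℝ S (t, p) (1, 0)) (fderiv ℝ S (t, p) (0, 1)) (heq (t, p))
    rw [← h]
    simp only [hF, hG, Finset.sum_sub_distrib, hsum, fderiv_gS_fst, fderiv_gS_snd]
  have hFle : ∀ t p, p ∈ Set.Icc (0 : ℝ) Real.pi → F t p ≤ -2 * (Real.sin p * Real.cos p ^ 2) := by
    intro t p hp
    have h := pointwise_neg (t, p) (Real.sin_nonneg_of_nonneg_of_le_pi hp.1 hp.2)
    rw [hFval]
    simp only at h
    linarith
  have hpi : (0 : ℝ) < Real.pi := Real.pi_pos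
  have hint : ∫ p in (0 : ℝ)..Real.pi, -2 * (Real.sin p * Real.cos p ^ 2) = -(4 / 3) := by
    have hd : ∀ x ∈ Set.uIcc (0 : ℝ) Real.pi,
        HasDerivAt (fun p => 2 / 3 * Real.cos p ^ 3) (-2 * (Real.sin x * Real.cos x ^ 2)) x := by
      intro x _
      have h := ((Real.hasDerivAt_cos x).pow 3).const_mul (2 / 3)
      have e : (-2 * (Real.sin x * Real.cos x ^ 2) : ℝ)
          = 2 / 3 * (((3 : ℕ) : ℝ) * Real.cos x ^ (3 - 1) * -Real.sin x) := by
        norm_num
        ring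
      rw [e]
      exact h
    rw [intervalIntegral.integral_eq_sub_of_hasDerivAt hd]
    · simp only [Real.cos_pi, Real.cos_zero]; norm_num
    · exact Continuous.intervalIntegrable (by fun_prop) _ _
  have hinner : ∀ t, ∫ p in (0 : ℝ)..Real.pi, F t p ≤ -(4 / 3) := by
    intro t
    rw [← hint]
    apply intervalIntegral.integral_mono_on hpi.le
    · exact Continuous.intervalIntegrable (hFc.comp (by fun_prop : Continuous fun p : ℝ => (t, p))) _ _
    · exact Continuous.intervalIntegrable (by fun_prop) _ _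
    · intro p hp; exact hFle t p hp
  have hcontin : ∀ H : ℝ → ℝ → ℝ, Continuous (Function.uncurry H) →
      Continuous fun t => ∫ p in (0 : ℝ)..Real.pi, H t p := by
    intro H hH
    exact intervalIntegral.continuous_parametric_intervalIntegral_of_continuous' hH 0 Real.pi
  have houter : ∫ t in (0 : ℝ)..(2 * Real.pi), ∫ p in (0 : ℝ)..Real.pi, F t p
      ≤ ∫ t in (0 : ℝ)..(2 * Real.pi), (-(4 / 3) : ℝ) := by
    apply intervalIntegral.integral_mono_on (by positivity)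
    · exact (hcontin F hFc).intervalIntegrable _ _
    · exact continuous_const.intervalIntegrable _ _
    · intro t _; exact hinner t
  have hzero : ∫ t in (0 : ℝ)..(2 * Real.pi), ∫ p in (0 : ℝ)..Real.pi, F t p = 0 := by
    have h1 : ∀ t, ∫ p in (0 : ℝ)..Real.pi, F t p = ∑ j, ∫ p in (0 : ℝ)..Real.pi, G (Ls j) t p := by
      intro t
      simp only [hF]
      rw [intervalIntegral.integral_finsetSum]
      intro j _
      exact Continuous.intervalIntegrable
        ((hGc (Ls j)).comp (by fun_prop : Continuous fun p : ℝ => (t, p))) _ _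
    simp only [h1]
    rw [intervalIntegral.integral_finsetSum]
    · exact Finset.sum_eq_zero fun j _ => key _
    · intro j _
      exact (hcontin _ (hGc (Ls j))).intervalIntegrable _ _
  rw [hzero, intervalIntegral.integral_const] at houter
  simp only [smul_eq_mul] at houter
  nlinarith

end Pool.Agent.Helper206.Cover
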