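import Mathlib
import Pool.Agent.Helper206.Cover.Calc

/-!
# Geometry of the example
-/

open scoped Manifold ContDiff Topology
open Metric Set Bundle

noncomputable section

namespace Pool.Agent.Helper206.Cover

/-! ### The sphere -/

theorem dInc_tanProj (z : P1) (v : R3) :
    dInc z (tanProj z v) = v - (inner ℝ (z : R3) v) • (z : R3) :=
  (exists_tanProj z).choose_spec v

theorem fact_R3 : Fact (Module.finrank ℝ R3 = 2 + 1) := ⟨by simp⟩

theorem inner_self_P1 (z : P1) : inner ℝ (z : R3) (z : R3) = (1 : ℝ) := by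
  have h : ‖(z : R3)‖ = 1 := by simp
  rw [real_inner_self_eq_norm_sq, h, one_pow]

theorem dInc_injective (z : P1) : Function.Injective (dInc z) := by
  have := fact_R3
  exact injective_mvfderiv_subtypeVal_sphere z

theorem inner_dInc (z : P1) (w : TangentSpace (𝓡 2) z) : inner ℝ (z : R3) (dInc z w) = (0 : ℝ) := by
  have := fact_R3
  have h := range_mvfderiv_subtypeVal (n := 2) z
  have h1 : dInc z w ∈ (mvfderiv (𝓡 2) ((↑) : sphere (0 : R3) 1 → R3) z).range := ⟨w, rfl⟩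
  rw [h] at h1
  exact Submodule.mem_orthogonal_singleton_iff_inner_right.1 h1

theorem tanProj_dInc (z : P1) (w : TangentSpace (𝓡 2) z) : tanProj z (dInc z w) = w := by
  apply dInc_injective z
  rw [dInc_tanProj, inner_dInc, zero_smul, sub_zero]

theorem inner_cross_self' (z v : R3) : inner ℝ z (cross z v) = (0 : ℝ) := by
  simp only [PiLp.inner_apply, Fin.sum_univ_three, cross]
  simp
  ring

theorem dInc_jP1 (z : P1) (w : TangentSpace (𝓡 2) z) :
    dInc z (jP1 z w) = cross (z : R3) (dInc z w) := by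
  have h : jP1 z w = tanProj z (cross (z : R3) (dInc z w)) := rfl
  rw [h, dInc_tanProj, inner_cross_self', zero_smul, sub_zero]

/-- inverse stereographic projection as a map to `R3` -/
def Zc (z₀ : P1) (y : E2) : R3 := (((extChartAt (𝓡 2) z₀).symm y : P1) : R3)

/-- the tangential projection followed by the differential of the chart -/
def Pc (z₀ : P1) (y : E2) : R3 →L[ℝ] E2 :=
  (mvfderiv (𝓡 2) (extChartAt (𝓡 2) z₀) ((extChartAt (𝓡 2) z₀).symm y)).comp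
    (tanProj ((extChartAt (𝓡 2) z₀).symm y))

theorem factR3 : Fact (Module.finrank ℝ R3 = 2 + 1) := ⟨by simp⟩

attribute [local instance] factR3

theorem extChartAt_P1_target (z₀ : P1) : (extChartAt (𝓡 2) z₀).target = univ := by
  have h : (chartAt (EuclideanSpace ℝ (Fin 2)) z₀).target = univ := stereographic'_target (-z₀)
  rw [extChartAt_target, h]
  simp

theorem xchart_symm_contMDiff (z₀ : P1) :
    ContMDiff 𝓘(ℝ, E2) (𝓡 2) ∞ ((extChartAt (𝓡 2) z₀).symm : E2 → P1) := by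
  have h := contMDiffOn_extChartAt_symm (I := 𝓡 2) (n := ∞) z₀
  rw [extChartAt_P1_target] at h
  exact contMDiffOn_univ.mp h

theorem contDiff_Zc (z₀ : P1) : ContDiff ℝ ∞ (Zc z₀) := by
  have h : ContMDiff 𝓘(ℝ, E2) 𝓘(ℝ, R3) ∞ (Zc z₀) :=
    (contMDiff_coe_sphere (n := 2) (E := R3)).comp (xchart_symm_contMDiff z₀)
  exact contMDiff_iff_contDiff.mp h

theorem norm_Zc (z₀ : P1) (y : E2) : ‖Zc z₀ y‖ = 1 :=
  norm_eq_of_mem_sphere _

theorem dInc_mfderiv_symm (z₀ : P1) (y v : E2) :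
    dInc ((extChartAt (𝓡 2) z₀).symm y)
      (mfderiv 𝓘(ℝ, E2) (𝓡 2) (extChartAt (𝓡 2) z₀).symm y v) = fderiv ℝ (Zc z₀) y v := by
  have h1 : MDifferentiableAt 𝓘(ℝ, E2) (𝓡 2) ((extChartAt (𝓡 2) z₀).symm : E2 → P1) y :=
    (xchart_symm_contMDiff z₀ y).mdifferentiableAt (by simp)
  have h2 : MDifferentiableAt (𝓡 2) 𝓘(ℝ, R3) (fun z : P1 => (z : R3))
      ((extChartAt (𝓡 2) z₀).symm y) :=
    ((contMDiff_coe_sphere (n := 2) (E := R3) (m := ∞)) _).mdifferentiableAt (by simp)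
  have h3 := mfderiv_comp y h2 h1
  have h4 : mfderiv 𝓘(ℝ, E2) 𝓘(ℝ, R3) (Zc z₀) y = fderiv ℝ (Zc z₀) y := mfderiv_eq_fderiv
  have h5 : mfderiv 𝓘(ℝ, E2) 𝓘(ℝ, R3) (Zc z₀) y v = fderiv ℝ (Zc z₀) y v :=
    congrArg (fun L => L v) h4
  rw [← h5]
  have h6 : mfderiv 𝓘(ℝ, E2) 𝓘(ℝ, R3) (Zc z₀) y =
    (mfderiv (𝓡 2) 𝓘(ℝ, R3) (fun z : P1 => (z : R3)) ((extChartAt (𝓡 2) z₀).symm y)).comp
      (mfderiv 𝓘(ℝ, E2) (𝓡 2) ((extChartAt (𝓡 2) z₀).symm : E2 → P1) y) := h3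
  rw [h6]
  rfl

theorem mvfderiv_chart_symm (z₀ : P1) (y v : E2) :
    mvfderiv (𝓡 2) (extChartAt (𝓡 2) z₀) ((extChartAt (𝓡 2) z₀).symm y)
      (mfderiv 𝓘(ℝ, E2) (𝓡 2) (extChartAt (𝓡 2) z₀).symm y v) = v := by
  have hy : y ∈ (extChartAt (𝓡 2) z₀).target := by rw [extChartAt_P1_target]; trivial
  have h := mfderiv_extChartAt_comp_mfderivWithin_extChartAt_symm (I := 𝓡 2) hy
  have hr : range (𝓡 2) = (univ : Set E2) := by simp
  rw [hr, mfderivWithin_univ] at h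
  exact congrArg (fun L => L v) h

theorem xsymm_mvfderiv_chart (z₀ : P1) (y : E2)
    (w : TangentSpace (𝓡 2) ((extChartAt (𝓡 2) z₀).symm y)) :
    mfderiv 𝓘(ℝ, E2) (𝓡 2) (extChartAt (𝓡 2) z₀).symm y
      (mvfderiv (𝓡 2) (extChartAt (𝓡 2) z₀) ((extChartAt (𝓡 2) z₀).symm y) w) = w := by
  have hy : y ∈ (extChartAt (𝓡 2) z₀).target := by rw [extChartAt_P1_target]; trivial
  have h := mfderivWithin_extChartAt_symm_comp_mfderiv_extChartAt (I := 𝓡 2) hy
  have hr : range (𝓡 2) = (univ : Set E2) := by simp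
  rw [hr, mfderivWithin_univ] at h
  exact congrArg (fun L => L w) h

theorem fderiv_Zc_injective (z₀ : P1) (y : E2) :
    Function.Injective (fderiv ℝ (Zc z₀) y) := by
  intro v w hvw
  rw [← dInc_mfderiv_symm, ← dInc_mfderiv_symm] at hvw
  have h := dInc_injective _ hvw
  rw [← mvfderiv_chart_symm z₀ y v, ← mvfderiv_chart_symm z₀ y w, h]

theorem fderiv_Zc_Pc (z₀ : P1) (y : E2) (v : R3) :
    fderiv ℝ (Zc z₀) y (Pc z₀ y v) = v - (inner ℝ (Zc z₀ y) v) • Zc z₀ y := by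
  rw [← dInc_mfderiv_symm]
  have h := xsymm_mvfderiv_chart z₀ y (tanProj ((extChartAt (𝓡 2) z₀).symm y) v)
  have h2 : Pc z₀ y v = mvfderiv (𝓡 2) (extChartAt (𝓡 2) z₀) ((extChartAt (𝓡 2) z₀).symm y)
    (tanProj ((extChartAt (𝓡 2) z₀).symm y) v) := rfl
  rw [h2, h]
  exact dInc_tanProj _ _

/-! ### Charts of `Y` -/

theorem extChartAt_Y_symm (x₀ : Y) (y : EY) :
    (extChartAt IY x₀).symm y
      = (((extChartAt (𝓡 2) x₀.1).symm y.1, (toT3 y.2.1, toT3 y.2.2)) : Y) := by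
  rw [extChartAt_prod, extChartAt_prod]
  rw [PartialEquiv.prod_symm, PartialEquiv.prod_symm]
  simp only [PartialEquiv.prod_coe, extChartAt_T3_symm]

theorem mfderiv_extChartAt_Y_symm (x₀ : Y) (y v : EY) :
    (mfderiv 𝓘(ℝ, EY) IY (extChartAt IY x₀).symm y v : EY)
      = ((mfderiv 𝓘(ℝ, E2) (𝓡 2) (extChartAt (𝓡 2) x₀.1).symm y.1 v.1, v.2) : EY) := by
  have hfun : ((extChartAt IY x₀).symm : EY → Y) = fun y =>
      (((extChartAt (𝓡 2) x₀.1).symm y.1, (toT3 y.2.1, toT3 y.2.2)) : Y) :=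
    funext (extChartAt_Y_symm x₀)
  have hA : HasMFDerivAt 𝓘(ℝ, E2) (𝓡 2) (extChartAt (𝓡 2) x₀.1).symm y.1
      (mfderiv 𝓘(ℝ, E2) (𝓡 2) (extChartAt (𝓡 2) x₀.1).symm y.1) := by
    have h1 : ContMDiffOn 𝓘(ℝ, E2) (𝓡 2) ∞ (extChartAt (𝓡 2) x₀.1).symm (extChartAt (𝓡 2) x₀.1).target :=
      contMDiffOn_extChartAt_symm x₀.1
    rw [extChartAt_P1_target, contMDiffOn_univ] at h1
    exact ((h1 y.1).mdifferentiableAt (by simp)).hasMFDerivAt
  have hT : ∀ x : R3, HasMFDerivAt 𝓘(ℝ, R3) 𝓘(ℝ, R3) toT3 x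
      (ContinuousLinearMap.id ℝ R3 : R3 →L[ℝ] R3) := by
    intro x
    have h1 := ((contMDiff_toT3 x).mdifferentiableAt (by simp)).hasMFDerivAt
    rw [mfderiv_toT3] at h1
    exact h1
  have f1 : HasMFDerivAt 𝓘(ℝ, EY) 𝓘(ℝ, E2) (fun y : EY => y.1) y
      (ContinuousLinearMap.fst ℝ E2 (R3 × R3)) := hasFDerivAt_fst.hasMFDerivAt
  have f2 : HasMFDerivAt 𝓘(ℝ, EY) 𝓘(ℝ, R3) (fun y : EY => y.2.1) y
      ((ContinuousLinearMap.fst ℝ R3 R3).comp (ContinuousLinearMap.snd ℝ E2 (R3 × R3))) :=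
    (hasFDerivAt_fst.comp y hasFDerivAt_snd).hasMFDerivAt
  have f3 : HasMFDerivAt 𝓘(ℝ, EY) 𝓘(ℝ, R3) (fun y : EY => y.2.2) y
      ((ContinuousLinearMap.snd ℝ R3 R3).comp (ContinuousLinearMap.snd ℝ E2 (R3 × R3))) :=
    (hasFDerivAt_snd.comp y hasFDerivAt_snd).hasMFDerivAt
  have g1 := hA.comp y f1
  have g2 := (hT y.2.1).comp y f2
  have g3 := (hT y.2.2).comp y f3
  have g := g1.prodMk (g2.prodMk g3)
  rw [hfun]
  have := g.mfderiv
  erw [this]
  rfl

theorem hasMFDerivAt_prodMk_space' {E₁ E₂ : Type*} [NormedAddCommGroup E₁] [NormedSpace ℝ E₁]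
    [NormedAddCommGroup E₂] [NormedSpace ℝ E₂] (f : Y → E₁) (g : Y → E₂) (x : Y)
    (df : EY →L[ℝ] E₁) (dg : EY →L[ℝ] E₂)
    (hf : HasMFDerivAt IY 𝓘(ℝ, E₁) f x df) (hg : HasMFDerivAt IY 𝓘(ℝ, E₂) g x dg) :
    HasMFDerivAt IY 𝓘(ℝ, E₁ × E₂) (fun y => (f y, g y)) x (df.prod dg) :=
  ⟨hf.1.prodMk hg.1, hf.2.prodMk hg.2⟩

theorem mvfderiv_extChartAt_Y (x₀ x : Y) (hx : x ∈ (extChartAt IY x₀).source) (v : EY) :
    mvfderiv IY (extChartAt IY x₀) x v
      = ((mvfderiv (𝓡 2) (extChartAt (𝓡 2) x₀.1) x.1 v.1, v.2) : EY) := by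
  rw [extChartAt_prod, extChartAt_prod, PartialEquiv.prod_source, PartialEquiv.prod_source] at hx
  obtain ⟨h1, h2, h3⟩ := hx
  have hfun : ((extChartAt IY x₀) : Y → EY) = fun y =>
      ((extChartAt (𝓡 2) x₀.1 y.1, (extChartAt 𝓘(ℝ, R3) x₀.2.1 y.2.1,
        extChartAt 𝓘(ℝ, R3) x₀.2.2 y.2.2)) : EY) := by
    funext y
    rw [extChartAt_prod, extChartAt_prod]
    simp only [PartialEquiv.prod_coe]
  have hA : HasMFDerivAt (𝓡 2) 𝓘(ℝ, E2) (extChartAt (𝓡 2) x₀.1) x.1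
      (mfderiv (𝓡 2) 𝓘(ℝ, E2) (extChartAt (𝓡 2) x₀.1) x.1) :=
    (mdifferentiableAt_extChartAt (by rwa [extChartAt_source] at h1)).hasMFDerivAt
  have hB : HasMFDerivAt 𝓘(ℝ, R3) 𝓘(ℝ, R3) (extChartAt 𝓘(ℝ, R3) x₀.2.1) x.2.1
      (ContinuousLinearMap.id ℝ R3 : R3 →L[ℝ] R3) := by
    have h := (mdifferentiableAt_extChartAt (I := 𝓘(ℝ, R3)) (x := x₀.2.1) (y := x.2.1)
      (by rwa [extChartAt_source] at h2)).hasMFDerivAt
    rw [mfderiv_extChartAt_T3 _ _ h2] at h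
    exact h
  have hC : HasMFDerivAt 𝓘(ℝ, R3) 𝓘(ℝ, R3) (extChartAt 𝓘(ℝ, R3) x₀.2.2) x.2.2
      (ContinuousLinearMap.id ℝ R3 : R3 →L[ℝ] R3) := by
    have h := (mdifferentiableAt_extChartAt (I := 𝓘(ℝ, R3)) (x := x₀.2.2) (y := x.2.2)
      (by rwa [extChartAt_source] at h3)).hasMFDerivAt
    rw [mfderiv_extChartAt_T3 _ _ h3] at h
    exact h
  have f1 : HasMFDerivAt IY (𝓡 2) (fun y : Y => y.1) x
      (ContinuousLinearMap.fst ℝ E2 (R3 × R3)) := hasMFDerivAt_fst x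
  have f2' : HasMFDerivAt IY (𝓘(ℝ, R3).prod 𝓘(ℝ, R3)) (fun y : Y => y.2) x
      (ContinuousLinearMap.snd ℝ E2 (R3 × R3)) := hasMFDerivAt_snd x
  have f21 : HasMFDerivAt (𝓘(ℝ, R3).prod 𝓘(ℝ, R3)) 𝓘(ℝ, R3) (fun y : T3 × T3 => y.1) x.2
      (ContinuousLinearMap.fst ℝ R3 R3) := hasMFDerivAt_fst x.2
  have f22 : HasMFDerivAt (𝓘(ℝ, R3).prod 𝓘(ℝ, R3)) 𝓘(ℝ, R3) (fun y : T3 × T3 => y.2) x.2
      (ContinuousLinearMap.snd ℝ R3 R3) := hasMFDerivAt_snd x.2
  have f2 := f21.comp x f2'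
  have f3 := f22.comp x f2'
  have g1 := hA.comp x f1
  have g2 := hB.comp x f2
  have g3 := hC.comp x f3
  have g := hasMFDerivAt_prodMk_space' _ _ x _ _ g1 (hasMFDerivAt_prodMk_space' _ _ x _ _ g2 g3)
  have hg := g.mfderiv
  have hval : (mfderiv IY 𝓘(ℝ, EY) (extChartAt IY x₀) x v : EY) =
      ((mfderiv (𝓡 2) 𝓘(ℝ, E2) (extChartAt (𝓡 2) x₀.1) x.1 v.1, v.2) : EY) := by
    rw [hfun]
    exact congrArg (fun L : EY →L[ℝ] EY => L v) hg
  exact hval

theorem formInChart_Y_JY (x : Y) (w : EY) : (JY x w : EY) =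
    (((tanProj x.1 : R3 →L[ℝ] E2) (rowS x.1 (incY x w)), rowV x.1 w.2) : EY) := rfl

theorem formInChart_Y_inc (x₀ : Y) (y v : EY) :
    incY ((extChartAt IY x₀).symm y)
      (mfderiv 𝓘(ℝ, EY) IY (extChartAt IY x₀).symm y v : EY)
      = ((fderiv ℝ (Zc x₀.1) y.1 v.1, v.2) : W) := by
  rw [mfderiv_extChartAt_Y_symm]
  have key : ∀ (x : Y), x = ((extChartAt (𝓡 2) x₀.1).symm y.1, (toT3 y.2.1, toT3 y.2.2)) →
      incY x ((mfderiv 𝓘(ℝ, E2) (𝓡 2) (extChartAt (𝓡 2) x₀.1).symm y.1 v.1, v.2) : EY)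
        = ((fderiv ℝ (Zc x₀.1) y.1 v.1, v.2) : W) := by
    rintro x rfl
    exact Prod.ext (dInc_mfderiv_symm x₀.1 y.1 v.1) rfl
  exact key _ (extChartAt_Y_symm x₀ y)

theorem formInChart_Y (x₀ : Y) (y : EY) :
    formInChart formY x₀ y = coordForm (Zc x₀.1) y := by
  refine ContinuousLinearMap.ext fun v => ContinuousLinearMap.ext fun v' => ?_
  have h1 := formInChart_Y_inc x₀ y v
  have h2 := formInChart_Y_inc x₀ y v'
  have hx : (((extChartAt IY x₀).symm y).1 : R3) = Zc x₀.1 y.1 := by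
    rw [extChartAt_Y_symm]; rfl
  show formW (((extChartAt IY x₀).symm y).1 : R3)
    (incY ((extChartAt IY x₀).symm y) (mfderiv 𝓘(ℝ, EY) IY (extChartAt IY x₀).symm y v : EY))
    (incY ((extChartAt IY x₀).symm y) (mfderiv 𝓘(ℝ, EY) IY (extChartAt IY x₀).symm y v' : EY)) =
    formW (Zc x₀.1 y.1) ((fderiv ℝ (Zc x₀.1) y.1 v.1, v.2) : W)
      ((fderiv ℝ (Zc x₀.1) y.1 v'.1, v'.2) : W)
  rw [h1, h2, hx]

theorem endoInChart_Y (x₀ : Y) (y : EY) (hy : y ∈ (extChartAt IY x₀).target) :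
    endoInChart JY x₀ y = coordEndo (Zc x₀.1) (Pc x₀.1) y := by
  refine ContinuousLinearMap.ext fun v => ?_
  have hx : (extChartAt IY x₀).symm y ∈ (extChartAt IY x₀).source :=
    (extChartAt IY x₀).map_target hy
  have h1 := formInChart_Y_inc x₀ y v
  have h3 := mfderiv_extChartAt_Y_symm x₀ y v
  have h2 := mvfderiv_extChartAt_Y x₀ ((extChartAt IY x₀).symm y) hx
    (JY ((extChartAt IY x₀).symm y) (mfderiv 𝓘(ℝ, EY) IY (extChartAt IY x₀).symm y v : EY))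
  show mvfderiv IY (extChartAt IY x₀) ((extChartAt IY x₀).symm y)
    (JY ((extChartAt IY x₀).symm y) (mfderiv 𝓘(ℝ, EY) IY (extChartAt IY x₀).symm y v : EY)) = _
  refine h2.trans ?_
  have key : ∀ (x : Y) (w : EY), x = ((extChartAt (𝓡 2) x₀.1).symm y.1,
      (toT3 y.2.1, toT3 y.2.2)) → incY x w = ((fderiv ℝ (Zc x₀.1) y.1 v.1, v.2) : W) →
      w.2 = v.2 →
      ((mvfderiv (𝓡 2) (extChartAt (𝓡 2) x₀.1) x.1
        ((tanProj x.1 : R3 →L[ℝ] E2) (rowS x.1 (incY x w))), rowV x.1 w.2) : EY) =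
        coordEndo (Zc x₀.1) (Pc x₀.1) y v := by
    intro x w hx hw hw2
    rw [hw, hw2]
    subst hx
    rfl
  have h4 := formInChart_Y_JY ((extChartAt IY x₀).symm y)
    (mfderiv 𝓘(ℝ, EY) IY (extChartAt IY x₀).symm y v : EY)
  rw [h4]
  exact key _ _ (extChartAt_Y_symm x₀ y) h1 (by rw [h3])

/-! ### The almost Kähler structure -/

theorem incY_JY (x : Y) (v : EY) : incY x (JY x v : EY) = Jw x.1 (incY x v) := by
  refine Prod.ext ?_ rfl
  exact dInc_tanProj x.1 _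

theorem incY_injective (x : Y) : Function.Injective (incY x) := by
  rintro ⟨a, b⟩ ⟨a', b'⟩ h
  have h1 : dInc x.1 a = dInc x.1 a' := congrArg Prod.fst h
  have h2 : b = b' := congrArg Prod.snd h
  have h3 : a = a' := dInc_injective x.1 h1
  rw [h2, h3]

theorem incY_orth (x : Y) (v : EY) : inner ℝ (x.1 : R3) (incY x v).1 = (0 : ℝ) :=
  inner_dInc x.1 v.1

/-- the almost Kähler structure of `Y` -/
def KY : AlmostKahler IY Y where
  form := formY
  J := JY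
  form_alt x v := formW_self x.1 (incY x v)
  form_smooth x₀ := by
    have h : formInChart formY x₀ = coordForm (Zc x₀.1) := funext (formInChart_Y x₀)
    rw [h]
    exact (contDiff_coordForm _ (contDiff_Zc _)).contDiffOn
  form_closed x₀ y _ a b c := by
    have h : formInChart formY x₀ = coordForm (Zc x₀.1) := funext (formInChart_Y x₀)
    rw [h]
    exact closed_coordForm _ (contDiff_Zc _) (norm_Zc _) y a b c
  J_smooth x₀ := by
    refine ContDiffOn.congr (f := coordEndo (Zc x₀.1) (Pc x₀.1)) ?_ (endoInChart_Y x₀)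
    exact (contDiff_coordEndo _ (contDiff_Zc _) _ (contDiff_pinv _ (contDiff_Zc _)
      (fderiv_Zc_injective _) _ (fderiv_Zc_Pc _))).contDiffOn
  J_sq x v := by
    apply incY_injective x
    have h1 := incY_JY x (JY x v)
    have h2 := incY_JY x v
    rw [h2, Jw_Jw _ (inner_self_P1 _) _ (incY_orth x v)] at h1
    exact h1.trans (map_neg (incY x) (v : EY)).symm
  form_J x v w := by
    have h1 := formW_Jw x.1 (inner_self_P1 _) _ _ (incY_orth x v) (incY_orth x w)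
    rw [← incY_JY, ← incY_JY] at h1
    exact h1
  form_pos x v hv := by
    have h0 : incY x v ≠ 0 := fun h => hv (incY_injective x (h.trans (map_zero _).symm))
    have h1 := formW_pos x.1 (inner_self_P1 _) _ (incY_orth x v) h0
    rw [← incY_JY] at h1
    exact h1

/-! ### The family of spheres -/

/-- the family of spheres -/
def uF (p : T3 × T3) (z : P1) : Y := (z, p)

theorem contMDiff_uF : ContMDiff ((𝓘(ℝ, R3).prod 𝓘(ℝ, R3)).prod (𝓡 2)) IY ∞
    (fun q : (T3 × T3) × P1 => uF q.1 q.2) := by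
  unfold uF
  exact contMDiff_snd.prodMk contMDiff_fst

theorem mfderiv_uF (p : T3 × T3) (z : P1) (w : TangentSpace (𝓡 2) z) :
    (mfderiv (𝓡 2) IY (uF p) z w : EY) = ((w, 0) : EY) := by
  have h : mfderiv (𝓡 2) IY (uF p) z = ContinuousLinearMap.prod
      (mfderiv (𝓡 2) (𝓡 2) (fun z : P1 => z) z)
      (mfderiv (𝓡 2) (𝓘(ℝ, R3).prod 𝓘(ℝ, R3)) (fun _ : P1 => p) z) := by
    exact mfderiv_prodMk mdifferentiableAt_id mdifferentiableAt_const
  rw [h]
  have h1 : mfderiv (𝓡 2) (𝓡 2) (fun z : P1 => z) z = ContinuousLinearMap.id ℝ _ := mfderiv_id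
  have h2 : mfderiv (𝓡 2) (𝓘(ℝ, R3).prod 𝓘(ℝ, R3)) (fun _ : P1 => p) z = 0 := mfderiv_const
  rw [h1, h2]
  rfl

theorem isHolomorphic_uF (p : T3 × T3) : IsHolomorphic KY (uF p) := by
  refine ⟨?_, ?_⟩
  · unfold uF
    exact contMDiff_id.prodMk contMDiff_const
  · intro z w
    have h1 : (mfderiv (𝓡 2) IY (uF p) z (jP1 z w) : EY) = ((jP1 z w, 0) : EY) :=
      mfderiv_uF p z (jP1 z w)
    have h2 : (mfderiv (𝓡 2) IY (uF p) z w : EY) = ((w, 0) : EY) := mfderiv_uF p z w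
    have key : (JY (uF p z) ((w, 0) : EY) : EY) = ((jP1 z w, 0) : EY) := by
      have e : (JY (uF p z) ((w, 0) : EY) : EY) =
          ((tanProj z (rowS (z : R3) (dInc z w, (0 : R3 × R3))), rowV (z : R3) 0) : EY) := rfl
      rw [e, map_zero, rowS_apply]
      have e3 : cross (z : R3) 0 = 0 := by
        have := map_zero (crossL (z : R3))
        exact this
      have e2 : cross (z : R3) (dInc z w) - (2 : ℝ) • cross (z : R3) (0 : R3) - (6 : ℝ) • (0 : R3)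
        = cross (z : R3) (dInc z w) := by
        rw [e3]; simp
      change ((tanProj z (cross (z : R3) (dInc z w) - (2 : ℝ) • cross (z : R3) (0 : R3)
        - (6 : ℝ) • (0 : R3)), (0 : R3 × R3)) : EY) = _
      rw [e2]
      rfl
    have h3 : (KY.J (uF p z) (mfderiv (𝓡 2) IY (uF p) z w) : EY) =
        (JY (uF p z) ((w, 0) : EY) : EY) := congrArg (fun x : EY => (JY (uF p z) x : EY)) h2
    exact h1.trans (key.symm.trans h3.symm)

/-- the vertical component of a vector field along `uF p` -/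
def vert {p : T3 × T3} (ξ : (z : P1) → TangentSpace IY (uF p z)) (z : P1) : R3 × R3 :=
  (ξ z : EY).2

theorem contMDiff_vert (p : T3 × T3) (ξ : (z : P1) → TangentSpace IY (uF p z))
    (hξ : IsSmoothAlong IY (uF p) ξ) : ContMDiff (𝓡 2) 𝓘(ℝ, R3 × R3) ∞ (vert ξ) := by
  have h1 : ContMDiff (𝓡 2) IY.tangent ∞ (fun z => (⟨uF p z, ξ z⟩ : TangentBundle IY Y)) := hξ
  have h2 : ContMDiff IY.tangent (𝓘(ℝ, R3).prod 𝓘(ℝ, R3)).tangent ∞
      (tangentMap IY (𝓘(ℝ, R3).prod 𝓘(ℝ, R3)) (Prod.snd : Y → T3 × T3)) :=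
    ContMDiff.contMDiff_tangentMap (n := ∞) (m := ∞) contMDiff_snd (by simp)
  have h3 := h2.comp h1
  have h4 : (tangentMap IY (𝓘(ℝ, R3).prod 𝓘(ℝ, R3)) (Prod.snd : Y → T3 × T3)) ∘
      (fun z => (⟨uF p z, ξ z⟩ : TangentBundle IY Y)) =
      fun z => (⟨p, (vert ξ z : R3 × R3)⟩ : TangentBundle (𝓘(ℝ, R3).prod 𝓘(ℝ, R3)) (T3 × T3)) := by
    funext z
    simp only [Function.comp, tangentMap]
    rw [mfderiv_snd]
    rfl
  rw [h4] at h3
  intro z
  have h5 := Bundle.contMDiffAt_totalSpace.1 (h3 z)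
  have h6 := h5.2
  refine h6.congr_of_eventuallyEq (Filter.Eventually.of_forall fun w => ?_)
  simp only
  have h7 := tangentCoordChange_self (I := 𝓘(ℝ, R3).prod 𝓘(ℝ, R3)) (x := p) (z := p)
    (v := (vert ξ w : R3 × R3)) (mem_extChartAt_source p)
  exact h7.symm

theorem contMDiff_of_comps (p : T3 × T3) (f : P1 → R3) (g : P1 → R3 × R3)
    (hf : ContMDiff (𝓡 2) 𝓘(ℝ, R3) ∞ f) (hg : ContMDiff (𝓡 2) 𝓘(ℝ, R3 × R3) ∞ g) :
    IsSmoothAlong IY (uF p) (fun z => ((tanProj z (f z), g z) : EY)) := by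
  intro z₀
  rw [Bundle.contMDiffAt_totalSpace]
  constructor
  · exact contMDiffAt_id.prodMk contMDiffAt_const
  · have hP : ContDiff ℝ ∞ (Pc z₀) := contDiff_pinv _ (contDiff_Zc z₀) (fderiv_Zc_injective z₀)
      (Pc z₀) (fderiv_Zc_Pc z₀)
    have h1 : ContMDiffAt (𝓡 2) 𝓘(ℝ, R3 →L[ℝ] E2) ∞
        (fun z => Pc z₀ (extChartAt (𝓡 2) z₀ z)) z₀ :=
      (hP.contMDiff.contMDiffAt).comp z₀ contMDiffAt_extChartAt
    have h2 : ContMDiffAt (𝓡 2) 𝓘(ℝ, E2) ∞
        (fun z => Pc z₀ (extChartAt (𝓡 2) z₀ z) (f z)) z₀ := h1.clm_apply (hf z₀)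
    have h3 : ContMDiffAt (𝓡 2) 𝓘(ℝ, EY) ∞
        (fun z => ((Pc z₀ (extChartAt (𝓡 2) z₀ z) (f z), g z) : EY)) z₀ :=
      h2.prodMk_space (hg z₀)
    refine h3.congr_of_eventuallyEq ?_
    have hcont : Continuous (uF p) := by
      unfold uF
      fun_prop
    have hnear : ∀ᶠ z in 𝓝 z₀, uF p z ∈ (chartAt (ModelProd E2 (ModelProd R3 R3)) (uF p z₀)).source :=
      hcont.continuousAt.preimage_mem_nhds
        ((chartAt (ModelProd E2 (ModelProd R3 R3)) (uF p z₀)).open_source.mem_nhds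
        (mem_chart_source _ _))
    have hnear2 : ∀ᶠ z in 𝓝 z₀, z ∈ (extChartAt (𝓡 2) z₀).source :=
      extChartAt_source_mem_nhds z₀
    filter_upwards [hnear, hnear2] with z hz hz2
    have hzs : uF p z ∈ (extChartAt IY (uF p z₀)).source := by
      rw [extChartAt_source]; exact hz
    have e1 : (trivializationAt EY (TangentSpace IY) (uF p z₀)
        ⟨uF p z, ((tanProj z (f z), g z) : EY)⟩).2 =
        (trivializationAt EY (TangentSpace IY) (uF p z₀)).continuousLinearMapAt ℝ (uF p z)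
          ((tanProj z (f z), g z) : EY) := by
      rw [Trivialization.continuousLinearMapAt_apply, Trivialization.coe_linearMapAt_of_mem]
      exact hz
    have e2 := mvfderiv_extChartAt_Y (uF p z₀) (uF p z) hzs ((tanProj z (f z), g z) : EY)
    have e3 : Pc z₀ (extChartAt (𝓡 2) z₀ z) (f z) =
        mvfderiv (𝓡 2) (extChartAt (𝓡 2) z₀) z (tanProj z (f z)) := by
      unfold Pc
      have : (extChartAt (𝓡 2) z₀).symm (extChartAt (𝓡 2) z₀ z) = z :=
        (extChartAt (𝓡 2) z₀).left_inv hz2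
      rw [this]
      rfl
    rw [e3]
    refine e1.trans ?_
    rw [TangentBundle.continuousLinearMapAt_trivializationAt hz]
    exact e2

theorem contMDiff_dInc (V : (z : P1) → TangentSpace (𝓡 2) z)
    (hV : ContMDiff (𝓡 2) (𝓡 2).tangent ∞ (fun z => (⟨z, V z⟩ : TangentBundle (𝓡 2) P1))) :
    ContMDiff (𝓡 2) 𝓘(ℝ, R3) ∞ (fun z => dInc z (V z)) := by
  have hF : Fact (Module.finrank ℝ R3 = 2 + 1) := ⟨by simp [R3]⟩
  have h1 : ContMDiff (𝓡 2) 𝓘(ℝ, R3) ∞ (fun z : P1 => (z : R3)) := contMDiff_coe_sphere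
  have h2 : ContMDiff (𝓡 2).tangent 𝓘(ℝ, R3).tangent ∞
      (tangentMap (𝓡 2) 𝓘(ℝ, R3) (fun z : P1 => (z : R3))) :=
    h1.contMDiff_tangentMap (by simp)
  have h3 := contMDiff_snd_tangentBundle_modelSpace R3 𝓘(ℝ, R3) (n := ∞)
  have h4 := (h3.comp h2).comp hV
  exact h4

theorem fieldInChart_eventually (p : T3 × T3) (ξ : (z : P1) → TangentSpace IY (uF p z)) (z : P1) :
    ∀ᶠ z' in 𝓝 z, uF p z' ∈ (extChartAt IY (uF p z)).source := by
  have hc : ContinuousAt (uF p) z := by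
    unfold uF
    fun_prop
  exact hc.preimage_mem_nhds (extChartAt_source_mem_nhds _)

theorem contMDiffAt_fieldInChart (p : T3 × T3) (ξ : (z : P1) → TangentSpace IY (uF p z))
    (hξ : IsSmoothAlong IY (uF p) ξ) (z : P1) :
    ContMDiffAt (𝓡 2) 𝓘(ℝ, EY) ∞ (fieldInChart (I := IY) (uF p) ξ z) z := by
  have h := hξ z
  have h2 := (Bundle.contMDiffAt_totalSpace.1 h).2
  refine h2.congr_of_eventuallyEq ?_
  filter_upwards [fieldInChart_eventually p ξ z] with z' hz'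
  have hz'' : uF p z' ∈ (chartAt (ModelProd E2 (ModelProd R3 R3)) (uF p z)).source := by
    simpa using hz'
  have e1 := TangentBundle.continuousLinearMapAt_trivializationAt (I := IY) hz''
  have hb : uF p z' ∈ (trivializationAt EY (TangentSpace IY) (uF p z)).baseSet := by
    simpa using hz''
  have e2 : (trivializationAt EY (TangentSpace IY) (uF p z)).continuousLinearMapAt ℝ (uF p z')
      (ξ z') = ((trivializationAt EY (TangentSpace IY) (uF p z)) ⟨uF p z', ξ z'⟩).2 := by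
    have := (trivializationAt EY (TangentSpace IY) (uF p z)).coe_linearMapAt_of_mem (R := ℝ) hb
    exact congrFun this (ξ z')
  rw [← e2, e1]
  rfl

theorem mvfderiv_fieldInChart_snd (p : T3 × T3) (ξ : (z : P1) → TangentSpace IY (uF p z))
    (hξ : IsSmoothAlong IY (uF p) ξ) (z : P1) (w : TangentSpace (𝓡 2) z) :
    (mvfderiv (𝓡 2) (fieldInChart (I := IY) (uF p) ξ z) z w : EY).2
      = mvfderiv (𝓡 2) (vert ξ) z w := by
  have h1 : MDifferentiableAt (𝓡 2) 𝓘(ℝ, EY) (fieldInChart (I := IY) (uF p) ξ z) z :=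
    (contMDiffAt_fieldInChart p ξ hξ z).mdifferentiableAt (by simp)
  have hs := h1.hasMFDerivAt
  have hsnd : HasMFDerivAt 𝓘(ℝ, EY) 𝓘(ℝ, R3 × R3) (Prod.snd : EY → R3 × R3)
      (fieldInChart (I := IY) (uF p) ξ z z) (ContinuousLinearMap.snd ℝ E2 (R3 × R3)) :=
    (ContinuousLinearMap.snd ℝ E2 (R3 × R3)).hasFDerivAt.hasMFDerivAt
  have hc := hsnd.comp z hs
  have hev : vert ξ =ᶠ[𝓝 z] (Prod.snd ∘ fieldInChart (I := IY) (uF p) ξ z) := by
    filter_upwards [fieldInChart_eventually p ξ z] with z' hz'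
    have := mvfderiv_extChartAt_Y (uF p z) (uF p z') hz' (ξ z')
    have h2 : fieldInChart (I := IY) (uF p) ξ z z'
      = ((mvfderiv (𝓡 2) (extChartAt (𝓡 2) (uF p z).1) (uF p z').1 (ξ z' : EY).1,
          (ξ z' : EY).2) : EY) := this
    show (ξ z' : EY).2 = (fieldInChart (I := IY) (uF p) ξ z z').2
    rw [h2]
  have h3 := (hc.congr_of_eventuallyEq hev).mfderiv
  show _ = (mfderiv (𝓡 2) 𝓘(ℝ, R3 × R3) (vert ξ) z w : R3 × R3)
  rw [h3]
  rfl

theorem dJ_snd (x₀ : Y) (ζ v : EY) (hv : v.2 = 0) :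
    ((fderiv ℝ (endoInChart JY x₀) (extChartAt IY x₀ x₀) ζ : EY →L[ℝ] EY) v).2 = 0 := by
  have hev : endoInChart JY x₀ =ᶠ[𝓝 (extChartAt IY x₀ x₀)] coordEndo (Zc x₀.1) (Pc x₀.1) := by
    filter_upwards [(isOpen_extChartAt_target x₀).mem_nhds (mem_extChartAt_target x₀)] with y hy
    exact endoInChart_Y x₀ y hy
  rw [hev.fderiv_eq]
  have hd : DifferentiableAt ℝ (coordEndo (Zc x₀.1) (Pc x₀.1)) (extChartAt IY x₀ x₀) :=
    ((contDiff_coordEndo _ (contDiff_Zc _) _ (contDiff_pinv _ (contDiff_Zc _)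
      (fderiv_Zc_injective _) _ (fderiv_Zc_Pc _))).differentiable (by simp)) _
  let Φ : (EY →L[ℝ] EY) →L[ℝ] (R3 × R3) :=
    (ContinuousLinearMap.snd ℝ E2 (R3 × R3)).comp (ContinuousLinearMap.apply ℝ EY v)
  have h1 : HasFDerivAt (fun y => Φ (coordEndo (Zc x₀.1) (Pc x₀.1) y))
      (Φ.comp (fderiv ℝ (coordEndo (Zc x₀.1) (Pc x₀.1)) (extChartAt IY x₀ x₀)))
      (extChartAt IY x₀ x₀) := Φ.hasFDerivAt.comp _ hd.hasFDerivAt
  have h2 : (fun y => Φ (coordEndo (Zc x₀.1) (Pc x₀.1) y)) = fun _ => 0 := by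
    funext y
    show (rowV (Zc x₀.1 y.1)) v.2 = 0
    rw [hv, map_zero]
  rw [h2] at h1
  have h3 := h1.unique (hasFDerivAt_const (0 : R3 × R3) (extChartAt IY x₀ x₀))
  have h4 := congrArg (fun L : EY →L[ℝ] (R3 × R3) => L ζ) h3
  exact h4

theorem linearization_vert (p : T3 × T3) (ξ : (z : P1) → TangentSpace IY (uF p z))
    (hξ : IsSmoothAlong IY (uF p) ξ) (z : P1) (w : TangentSpace (𝓡 2) z) :
    (linearization KY (uF p) ξ z w : EY).2
      = (1 / 2 : ℝ) • (mvfderiv (𝓡 2) (vert ξ) z w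
        + rowV z (mvfderiv (𝓡 2) (vert ξ) z (jP1 z w))) := by
  have h1 := mvfderiv_fieldInChart_snd p ξ hξ z w
  have h2 := mvfderiv_fieldInChart_snd p ξ hξ z (jP1 z w)
  have h3 := dJ_snd (uF p z) (ξ z) (mfderiv (𝓡 2) IY (uF p) z (jP1 z w))
    (by rw [mfderiv_uF])
  have h4 : (linearization KY (uF p) ξ z w : EY).2 = (1 / 2 : ℝ) •
      ((mvfderiv (𝓡 2) (fieldInChart (I := IY) (uF p) ξ z) z w : EY).2
        + rowV z (mvfderiv (𝓡 2) (fieldInChart (I := IY) (uF p) ξ z) z (jP1 z w) : EY).2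
        + ((fderiv ℝ (endoInChart JY (uF p z)) (extChartAt IY (uF p z) (uF p z)) (ξ z)
          : EY →L[ℝ] EY) (mfderiv (𝓡 2) IY (uF p) z (jP1 z w))).2) := rfl
  rw [h4, h1, h2, h3, add_zero]

theorem etaW663_add (z a b : R3) : etaW z (a + b) = etaW z a + etaW z b := by
  refine Prod.ext ?_ (Prod.ext ?_ ?_)
  · ext i; fin_cases i <;> simp [etaW, cross, M0, dgq] <;> ring
  · ext i; fin_cases i <;> simp [etaW, cross, M0, dgq] <;> ring
  · ext i; fin_cases i <;> simp [etaW, cross, M0, dgq] <;> ring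

theorem etaW663_smul (z : R3) (c : ℝ) (a : R3) : etaW z (c • a) = c • etaW z a := by
  refine Prod.ext ?_ (Prod.ext ?_ ?_)
  · ext i; fin_cases i <;> simp [etaW, cross, M0, dgq] <;> ring
  · ext i; fin_cases i <;> simp [etaW, cross, M0, dgq] <;> ring
  · ext i; fin_cases i <;> simp [etaW, cross, M0, dgq] <;> ring

/-- `etaW` as a linear map in the second variable -/
def etaL (z : R3) : R3 →L[ℝ] W :=
  LinearMap.toContinuousLinearMap
    { toFun := etaW z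
      map_add' := etaW663_add z
      map_smul' := etaW663_smul z }

theorem etaL_apply (z w : R3) : etaL z w = etaW z w := rfl

/-- the `(0,1)`-form which is not in the image -/
def eta (p : T3 × T3) (z : P1) : TangentSpace (𝓡 2) z →L[ℝ] TangentSpace IY (uF p z) :=
  ((((tanProj z : R3 →L[ℝ] E2).comp ((ContinuousLinearMap.fst ℝ R3 (R3 × R3)).comp
      ((etaL z).comp (dInc z)))).prod
    ((ContinuousLinearMap.snd ℝ R3 (R3 × R3)).comp ((etaL z).comp (dInc z)))) : E2 →L[ℝ] EY)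

theorem contDiff663_etaW : ContDiff ℝ ∞ (fun x : R3 × R3 => etaW x.1 x.2) := by
  have hc : ∀ i, ContDiff ℝ ∞ (fun x : R3 × R3 => x.1 i) := fun i =>
    contDiff_euclidean.1 contDiff_fst i
  have hd : ∀ i, ContDiff ℝ ∞ (fun x : R3 × R3 => x.2 i) := fun i =>
    contDiff_euclidean.1 contDiff_snd i
  have c0 := hc 0
  have c1 := hc 1
  have c2 := hc 2
  have d0 := hd 0
  have d1 := hd 1
  have d2 := hd 2
  refine ContDiff.prodMk ?_ (ContDiff.prodMk ?_ ?_)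
  · rw [contDiff_euclidean]
    intro i
    fin_cases i
    · simp [etaW, cross, M0, dgq]
      fun_prop
    · simp [etaW, cross, M0, dgq]
      fun_prop
    · simp [etaW, cross, M0, dgq]
      fun_prop
  · rw [contDiff_euclidean]
    intro i
    fin_cases i
    · simp [etaW, cross, M0, dgq]
      fun_prop
    · simp [etaW, cross, M0, dgq]
      fun_prop
    · simp [etaW, cross, M0, dgq]
      fun_prop
  · rw [contDiff_euclidean]
    intro i
    fin_cases i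
    · simp [etaW, cross, M0, dgq]
      fun_prop
    · simp [etaW, cross, M0, dgq]
      fun_prop
    · simp [etaW, cross, M0, dgq]
      try fun_prop

theorem incY663_eta (p : T3 × T3) (z : P1) (w : TangentSpace (𝓡 2) z) :
    incY (uF p z) (eta p z w : EY) = etaW z (dInc z w) := by
  have h1 : dInc z (tanProj z (etaW z (dInc z w)).1) = (etaW z (dInc z w)).1 := by
    rw [dInc_tanProj, etaW_orth, zero_smul, sub_zero]
  exact Prod.ext h1 rfl

theorem isForm01_eta (p : T3 × T3) : IsForm01 KY (uF p) (eta p) := by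
  refine ⟨fun z w => ?_, fun V hV => ?_⟩
  · apply incY_injective (uF p z)
    have h1 := incY663_eta p z (jP1 z w)
    have h2 := incY663_eta p z w
    rw [dInc_jP1, etaW_cross z (inner_self_P1 z) _ (inner_dInc z w), ← h2] at h1
    have h3 := incY_JY (uF p z) (eta p z w)
    have h4 : Jw (z : R3) (incY (uF p z) (eta p z w : EY)) =
        incY (uF p z) (JY (uF p z) (eta p z w) : EY) := h3.symm
    rw [h4] at h1
    exact h1.trans (map_neg (incY (uF p z)) (JY (uF p z) (eta p z w) : EY)).symm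
  · have hF : ContMDiff (𝓡 2) 𝓘(ℝ, R3 × (R3 × R3)) ∞ (fun z : P1 => etaW z (dInc z (V z))) := by
      have h0 : ContMDiff (𝓡 2) 𝓘(ℝ, R3) ∞ (fun z : P1 => (z : R3)) := by
        haveI : Fact (Module.finrank ℝ (EuclideanSpace ℝ (Fin (2 + 1))) = 2 + 1) :=
          Fact.mk (@finrank_euclideanSpace_fin ℝ _ (2 + 1))
        exact @contMDiff_coe_sphere (EuclideanSpace ℝ (Fin (2 + 1))) _ _ ∞ 2 this
      have h1 : ContMDiff (𝓡 2) 𝓘(ℝ, R3 × R3) ∞ (fun z : P1 => ((z : R3), dInc z (V z))) :=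
        ContMDiff.prodMk_space h0 (contMDiff_dInc V hV)
      exact (contDiff663_etaW.contMDiff).comp h1
    have hf : ContMDiff (𝓡 2) 𝓘(ℝ, R3) ∞ (fun z : P1 => (etaW z (dInc z (V z))).1) :=
      ((contDiff_fst (𝕜 := ℝ) (n := ∞) (E := R3) (F := R3 × R3)).contMDiff).comp hF
    have hg : ContMDiff (𝓡 2) 𝓘(ℝ, R3 × R3) ∞ (fun z : P1 => (etaW z (dInc z (V z))).2) :=
      ((contDiff_snd (𝕜 := ℝ) (n := ∞) (E := R3) (F := R3 × R3)).contMDiff).comp hF
    exact contMDiff_of_comps p _ _ hf hg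

theorem sph_mem (q : ℝ × ℝ) : sph q ∈ sphere (0 : R3) 1 := by
  rw [mem_sphere_zero_iff_norm, EuclideanSpace.norm_eq, Real.sqrt_eq_one]
  simp only [Fin.sum_univ_three, Real.norm_eq_abs, sq_abs, sph]
  simp
  have h1 := Real.sin_sq_add_cos_sq q.2
  have h2 := Real.sin_sq_add_cos_sq q.1
  nlinarith [h1, h2]

theorem hasFDerivAt_sph (q : ℝ × ℝ) : HasFDerivAt sph
    ((ContinuousLinearMap.fst ℝ ℝ ℝ).smulRight (sph1 q)
      + (ContinuousLinearMap.snd ℝ ℝ ℝ).smulRight (sph2 q)) q := by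
  have h1 : HasFDerivAt (fun q : ℝ × ℝ => q.1) (ContinuousLinearMap.fst ℝ ℝ ℝ) q := hasFDerivAt_fst
  have h2 : HasFDerivAt (fun q : ℝ × ℝ => q.2) (ContinuousLinearMap.snd ℝ ℝ ℝ) q := hasFDerivAt_snd
  rw [← hasFDerivWithinAt_univ, hasFDerivWithinAt_euclidean]
  intro i
  rw [hasFDerivWithinAt_univ]
  fin_cases i
  · have := (h2.sin).mul (h1.cos)
    refine this.congr_fderiv ?_
    ext <;> simp [sph1, sph2] <;> ring
  · have := (h2.sin).mul (h1.sin)
    refine this.congr_fderiv ?_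
    ext <;> simp [sph1, sph2] <;> ring
  · have := (h2.cos)
    refine this.congr_fderiv ?_
    ext <;> simp [sph1, sph2] 

theorem contDiff_sph : ContDiff ℝ ∞ sph := by
  rw [contDiff_euclidean]
  intro i
  fin_cases i
  · exact (Real.contDiff_sin.comp contDiff_snd).mul (Real.contDiff_cos.comp contDiff_fst)
  · exact (Real.contDiff_sin.comp contDiff_snd).mul (Real.contDiff_sin.comp contDiff_fst)
  · exact (Real.contDiff_cos.comp contDiff_snd)

/-- spherical coordinates as a map to the sphere -/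
def sphP (q : ℝ × ℝ) : P1 := ⟨sph q, sph_mem q⟩

theorem contMDiff_sphP : ContMDiff 𝓘(ℝ, ℝ × ℝ) (𝓡 2) ∞ sphP :=
  ContMDiff.codRestrict_sphere (f := sph) contDiff_sph.contMDiff sph_mem

theorem not_isRegular (p : T3 × T3) : ¬ IsRegular KY (uF p) := by
  intro hreg
  obtain ⟨ξ, hξ, hlin⟩ := hreg (eta p) (isForm01_eta p)
  have hs : ContMDiff (𝓡 2) 𝓘(ℝ, R3 × R3) ∞ (vert ξ) := contMDiff_vert p ξ hξ
  have hS : ContDiff ℝ ∞ (vert ξ ∘ sphP) := (hs.comp contMDiff_sphP).contDiff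
  refine no_solution (vert ξ ∘ sphP) (hS.of_le (by exact_mod_cast le_top)) ?_ ?_
  · intro q
    have : sphP (q.1 + 2 * Real.pi, q.2) = sphP q := by
      apply Subtype.ext
      simp [sphP, sph]
    simp only [Function.comp, this]
  · intro q
    have hdP : MDifferentiableAt 𝓘(ℝ, ℝ × ℝ) (𝓡 2) sphP q :=
      (contMDiff_sphP q).mdifferentiableAt (by simp)
    have hds : MDifferentiableAt (𝓡 2) 𝓘(ℝ, R3 × R3) (vert ξ) (sphP q) :=
      (hs (sphP q)).mdifferentiableAt (by simp)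
    have hdc : MDifferentiableAt (𝓡 2) 𝓘(ℝ, R3) (fun z : P1 => (z : R3)) (sphP q) := 
      (contMDiff_coe_sphere (n := 2) (m := ∞) (sphP q)).mdifferentiableAt (by simp)
    have hchain : ∀ v : ℝ × ℝ, fderiv ℝ (vert ξ ∘ sphP) q v
        = mvfderiv (𝓡 2) (vert ξ) (sphP q) (mfderiv 𝓘(ℝ, ℝ × ℝ) (𝓡 2) sphP q v) := by
      intro v
      have := mfderiv_comp q hds hdP
      rw [mfderiv_eq_fderiv] at this
      rw [this]
      rfl
    have hinc : ∀ v : ℝ × ℝ, dInc (sphP q) (mfderiv 𝓘(ℝ, ℝ × ℝ) (𝓡 2) sphP q v)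
        = fderiv ℝ sph q v := by
      intro v
      have := mfderiv_comp q hdc hdP
      rw [mfderiv_eq_fderiv] at this
      have h2 : ((fun z : P1 => (z : R3)) ∘ sphP) = sph := rfl
      rw [h2] at this
      rw [this]
      rfl
    have hf := (hasFDerivAt_sph q).fderiv
    have hd1 : fderiv ℝ sph q (1, 0) = sph1 q := by rw [hf]; simp
    have hd2 : fderiv ℝ sph q (0, 1) = sph2 q := by rw [hf]; simp
    have hj : jP1 (sphP q) (mfderiv 𝓘(ℝ, ℝ × ℝ) (𝓡 2) sphP q ((1, 0) : ℝ × ℝ))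
        = -(Real.sin q.2) • (mfderiv 𝓘(ℝ, ℝ × ℝ) (𝓡 2) sphP q ((0, 1) : ℝ × ℝ)) := by
      apply dInc_injective
      rw [dInc_jP1, hinc, map_smul, hinc, hd1, hd2]
      ext i
      have h1 := Real.sin_sq_add_cos_sq q.1
      fin_cases i <;> simp [cross, sph, sph1, sph2, sphP] 
      · ring
      · ring
      · linear_combination (Real.sin q.2 ^ 2) * h1
    have h1 := linearization_vert p ξ hξ (sphP q)
      (mfderiv 𝓘(ℝ, ℝ × ℝ) (𝓡 2) sphP q ((1, 0) : ℝ × ℝ))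
    rw [hlin (sphP q) (mfderiv 𝓘(ℝ, ℝ × ℝ) (𝓡 2) sphP q ((1, 0) : ℝ × ℝ)), hj] at h1
    rw [hchain, hchain]
    have h3 : (eta p (sphP q) (mfderiv 𝓘(ℝ, ℝ × ℝ) (𝓡 2) sphP q ((1, 0) : ℝ × ℝ)) : EY).2
        = (etaW (sph q) (sph1 q)).2 := by
      rw [← hd1, ← hinc]
      rfl
    rw [← h3, h1]
    rw [map_smul, map_smul, neg_smul, sub_eq_add_neg]
    rfl

end Pool.Agent.Helper206.Cover
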